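import Pool.Agent.H57.EDT.Growth

/-! Group theory for the indexed normal form: two subgroups of finite index and contraction. -/

namespace Pool.Agent.H57.EDT

/-- value of a word in the group -/
def vg (w : List Gen) : Grig := (w.map gen).prod

theorem vg_append (w w' : List Gen) : vg (w ++ w') = vg w * vg w' := by simp [vg]

theorem vg_nil : vg [] = 1 := rfl

theorem vg_cons (s : Gen) (w : List Gen) : vg (s :: w) = gen s * vg w := by simp [vg]

theorem coe_vg (w : List Gen) : (vg w : Equiv.Perm (List Bool)) = pv w := coe_prod_gen w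

theorem gen_sq (s : Gen) : gen s * gen s = 1 := Subtype.ext (genPerm_sq s)

theorem gen_inv (s : Gen) : (gen s)⁻¹ = gen s := inv_eq_of_mul_eq_one_left (gen_sq s)

theorem vg_reverse (w : List Gen) : vg w.reverse = (vg w)⁻¹ := by
  induction w with
  | nil => simp [vg]
  | cons s w ih =>
    rw [List.reverse_cons, vg_append, ih, vg_cons s [], vg_nil, mul_one, vg_cons s w,
      mul_inv_rev, gen_inv]

theorem vg_surj (g : Grig) : ∃ w, vg w = g := by
  obtain ⟨g, hg⟩ := g
  induction hg using Subgroup.closure_induction_left with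
  | one => exact ⟨[], rfl⟩
  | mul_left x hx y hy ih =>
    obtain ⟨s, rfl⟩ := hx
    obtain ⟨w, hw⟩ := ih
    exact ⟨s :: w, by rw [vg_cons, hw]; rfl⟩
  | inv_mul_cancel x hx y hy ih =>
    obtain ⟨s, rfl⟩ := hx
    obtain ⟨w, hw⟩ := ih
    refine ⟨s :: w, ?_⟩
    rw [vg_cons, hw]
    apply Subtype.ext
    show genPerm s * y = (genPerm s)⁻¹ * y
    have : (genPerm s)⁻¹ = genPerm s := inv_eq_of_mul_eq_one_left (genPerm_sq s)
    rw [this]

theorem wl_le (w : List Gen) : wordLength (vg w) ≤ w.length := Nat.sInf_le ⟨w, rfl, rfl⟩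

theorem exists_word (g : Grig) : ∃ w, vg w = g ∧ w.length = wordLength g := by
  obtain ⟨w, hw⟩ := vg_surj g
  have : {n : ℕ | ∃ w : List Gen, (w.map gen).prod = g ∧ w.length = n}.Nonempty :=
    ⟨w.length, w, hw, rfl⟩
  exact Nat.sInf_mem this

theorem wl_mul (g h : Grig) : wordLength (g * h) ≤ wordLength g + wordLength h := by
  obtain ⟨w, hw, hwl⟩ := exists_word g
  obtain ⟨w', hw', hwl'⟩ := exists_word h
  rw [← hwl, ← hwl', ← List.length_append, ← hw, ← hw', ← vg_append]
  exact wl_le _

theorem finite_ball (n : ℕ) : {g : Grig | wordLength g ≤ n}.Finite := by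
  obtain ⟨hf, -⟩ := card_lists_le n {w : List Gen | w.length ≤ n} (fun r hr => hr)
  apply (hf.image vg).subset
  intro g hg
  obtain ⟨w, hw, hwl⟩ := exists_word g
  exact ⟨w, by rw [Set.mem_ofPred_eq, hwl]; exact hg, hw⟩

/-! ### the maps to the dihedral group -/

theorem tt_sq (i : ℕ) (s : Gen) : tt i s * tt i s = 1 := by
  have hd : genPerm .d * genPerm .d = 1 := genPerm_sq _
  match i with
  | 0 =>
    rw [tt_zero]
    cases s
    · simp only [del, pv_cons, pv_nil, mul_one]; exact hd
    · simp [del, pv_nil]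
    · simp only [del, pv_cons, pv_nil, mul_one]; exact genPerm_sq _
    · simp only [del, pv_cons, pv_nil, mul_one]; exact genPerm_sq _
  | 1 =>
    cases s
    · exact tt_a_sq 1
    · rw [tt_one_b, ap_sq]
    · rw [tt_succ]
      simp only [sig, tw_cons, tw_nil, tt_zero, del, pv_nil, mul_one]
    · rw [tt_succ]
      simp only [sig, tw_cons, tw_nil, tt_zero, del, pv_cons, pv_nil, mul_one]
      exact genPerm_sq _
  | i + 2 =>
    rcases tt_mem i s with h | h
    · rw [h, mul_one]
    · rw [h, ap_sq]

theorem tw_reverse (i : ℕ) (w : List Gen) : tw i w.reverse = (tw i w)⁻¹ := by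
  induction w with
  | nil => simp [tw_nil]
  | cons s w ih =>
    rw [List.reverse_cons, tw_append, ih, tw_cons, tw_cons, tw_nil, mul_one, mul_inv_rev,
      inv_eq_of_mul_eq_one_left (tt_sq i s)]

theorem Good.append {w w' : List Gen} (h : Good w) (h' : Good w') : Good (w ++ w') := by
  intro i; rw [tw_append, h, h', one_mul]

theorem Good.reverse {w : List Gen} (h : Good w) : Good w.reverse := by
  intro i; rw [tw_reverse, h, inv_one]

/-- first subgroup: values of good words -/
def Gam : Subgroup Grig where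
  carrier := {g | ∃ w, Good w ∧ vg w = g}
  one_mem' := ⟨[], good_nil, rfl⟩
  mul_mem' := by
    rintro _ _ ⟨w, hw, rfl⟩ ⟨w', hw', rfl⟩
    exact ⟨w ++ w', hw.append hw', vg_append w w'⟩
  inv_mem' := by
    rintro _ ⟨w, hw, rfl⟩
    exact ⟨w.reverse, hw.reverse, vg_reverse w⟩

theorem mem_Gam (g : Grig) : g ∈ Gam ↔ ∃ w, Good w ∧ vg w = g := Iff.rfl

/-- periodicity of the maps -/
theorem tt_two (s : Gen) : tt 2 s = match s with
    | .a => 1
    | .b => ap
    | .c => ap
    | .d => 1 := by
  have hd : genPerm .d * genPerm .d = 1 := genPerm_sq _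
  have oc : tt 1 .c = 1 := by
    rw [tt_succ]
    simp only [sig, tw_cons, tw_nil, tt_zero, del, pv_nil, mul_one]
  have od : tt 1 .d = ap := by
    rw [tt_succ]
    simp only [sig, tw_cons, tw_nil, tt_zero, del, pv_cons, pv_nil, mul_one]
    rfl
  cases s
  · show tt 2 .a = 1
    rw [tt_succ]
    simp only [sig, tw_cons, tw_nil, oc, mul_one, one_mul]
    exact tt_a_sq 1
  · show tt 2 .b = ap
    rw [tt_succ]
    simp only [sig, tw_cons, tw_nil, od, mul_one]
  · show tt 2 .c = ap
    rw [tt_succ]
    simp only [sig, tw_cons, tw_nil, tt_one_b, mul_one]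
  · show tt 2 .d = 1
    rw [tt_succ]
    simp only [sig, tw_cons, tw_nil, oc, mul_one]

theorem tt_three (s : Gen) : tt 3 s = match s with
    | .a => ap
    | .b => 1
    | .c => ap
    | .d => ap := by
  cases s <;> rw [tt_succ] <;> simp only [sig, tw_cons, tw_nil, tt_two, mul_one, one_mul]

theorem tt_four (s : Gen) : tt 4 s = match s with
    | .a => ap
    | .b => ap
    | .c => 1
    | .d => ap := by
  cases s <;> rw [tt_succ] <;> simp only [sig, tw_cons, tw_nil, tt_three, mul_one, ap_sq]

theorem tt_five (s : Gen) : tt 5 s = tt 2 s := by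
  rw [tt_two]
  cases s <;> rw [tt_succ] <;> simp only [sig, tw_cons, tw_nil, tt_four, mul_one, one_mul, ap_sq]

theorem tw_congr {i j : ℕ} (h : ∀ s, tt i s = tt j s) (w : List Gen) : tw i w = tw j w := by
  induction w with
  | nil => rw [tw_nil, tw_nil]
  | cons s w ih => rw [tw_cons, tw_cons, h, ih]

theorem tt_period (i : ℕ) (s : Gen) : tt (i + 5) s = tt (i + 2) s := by
  induction i generalizing s with
  | zero => exact tt_five s
  | succ i ih =>
    have e1 : i + 1 + 5 = (i + 5) + 1 := by ring
    have e2 : i + 1 + 2 = (i + 2) + 1 := by ring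
    rw [e1, e2, tt_succ, tt_succ]
    exact tw_congr ih _

theorem good_of_five (w : List Gen) (h : ∀ i : Fin 5, tw i w = 1) : Good w := by
  intro i
  induction i using Nat.strong_induction_on with
  | _ i ih =>
    by_cases hi : i < 5
    · exact h ⟨i, hi⟩
    · obtain ⟨j, rfl⟩ : ∃ j, i = j + 5 := ⟨i - 5, by omega⟩
      rw [tw_congr (tt_period j)]
      exact ih (j + 2) (by omega)

/-- the eight elements of the dihedral group generated by `a` and `d` -/
def dih : Set (Equiv.Perm (List Bool)) :=
  {1, ap, genPerm .d, ap * genPerm .d, genPerm .d * ap, ap * genPerm .d * ap,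
    genPerm .d * ap * genPerm .d, ap * genPerm .d * ap * genPerm .d}

theorem dih_finite : dih.Finite := by
  unfold dih
  exact Set.toFinite _

theorem adad : genPerm .d * ap * genPerm .d * ap = ap * genPerm .d * ap * genPerm .d := by
  have hd : genPerm .d * genPerm .d = 1 := genPerm_sq _
  have h := dada_sq
  have e : (genPerm .d * ap * genPerm .d * ap) * (ap * genPerm .d * ap * genPerm .d) = 1 := by
    calc (genPerm .d * ap * genPerm .d * ap) * (ap * genPerm .d * ap * genPerm .d)
        = genPerm .d * ap * genPerm .d * (ap * ap) * genPerm .d * ap * genPerm .d := by group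
      _ = genPerm .d * ap * (genPerm .d * genPerm .d) * ap * genPerm .d := by
          rw [ap_sq]; group
      _ = genPerm .d * (ap * ap) * genPerm .d := by rw [hd]; group
      _ = 1 := by rw [ap_sq, mul_one, hd]
  have e2 := inv_eq_of_mul_eq_one_right h
  have e3 := inv_eq_of_mul_eq_one_right e
  rw [← e2, e3]

theorem dih_a {x : Equiv.Perm (List Bool)} (h : x ∈ dih) : ap * x ∈ dih := by
  unfold dih at h ⊢
  simp only [Set.mem_insert_iff, Set.mem_singleton_iff] at h ⊢
  have c1 : ∀ y : Equiv.Perm (List Bool), ap * (ap * y) = y := by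
    intro y; rw [← mul_assoc, ap_sq, one_mul]
  rcases h with rfl | rfl | rfl | rfl | rfl | rfl | rfl | rfl
  · right; left; rw [mul_one]
  · left; rw [ap_sq]
  · right; right; right; left; rfl
  · right; right; left; rw [c1]
  · right; right; right; right; right; left; rw [mul_assoc]
  · right; right; right; right; left
    rw [mul_assoc ap (genPerm .d) ap, c1]
  · right; right; right; right; right; right; right
    rw [mul_assoc, mul_assoc, mul_assoc]
  · right; right; right; right; right; right; left
    rw [mul_assoc ap, mul_assoc ap, c1, mul_assoc]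

theorem dih_d {x : Equiv.Perm (List Bool)} (h : x ∈ dih) : genPerm .d * x ∈ dih := by
  unfold dih at h ⊢
  simp only [Set.mem_insert_iff, Set.mem_singleton_iff] at h ⊢
  have hd : genPerm .d * genPerm .d = 1 := genPerm_sq _
  have c1 : ∀ y : Equiv.Perm (List Bool), genPerm .d * (genPerm .d * y) = y := by
    intro y; rw [← mul_assoc, hd, one_mul]
  rcases h with rfl | rfl | rfl | rfl | rfl | rfl | rfl | rfl
  · right; right; left; rw [mul_one]
  · right; right; right; right; left; rfl
  · left; rw [hd]
  · right; right; right; right; right; right; left; rw [mul_assoc]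
  · right; left; rw [c1]
  · right; right; right; right; right; right; right
    rw [← adad]
    simp only [mul_assoc]
  · right; right; right; left
    rw [mul_assoc (genPerm .d) ap, c1]
  · right; right; right; right; right; left
    rw [← adad]
    have : genPerm .d * (genPerm .d * ap * genPerm .d * ap) =
      genPerm .d * (genPerm .d * (ap * genPerm .d * ap)) := by simp only [mul_assoc]
    rw [this, c1]

theorem dih_one : (1 : Equiv.Perm (List Bool)) ∈ dih := by
  unfold dih; left; rfl

theorem dih_ap : ap ∈ dih := by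
  unfold dih; right; left; rfl

theorem tw_mem_dih (i : ℕ) (w : List Gen) : tw i w ∈ dih := by
  match i with
  | 0 =>
    induction w with
    | nil => rw [tw_nil]; exact dih_one
    | cons s w ih =>
      rw [tw_cons, tt_zero]
      cases s
      · simp only [del, pv_cons, pv_nil, mul_one]; exact dih_d ih
      · simp only [del, pv_nil, one_mul]; exact ih
      · simp only [del, pv_cons, pv_nil, mul_one]; exact dih_a ih
      · simp only [del, pv_cons, pv_nil, mul_one]; exact dih_a ih
  | 1 =>
    induction w with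
    | nil => rw [tw_nil]; exact dih_one
    | cons s w ih =>
      rw [tw_cons]
      cases s
      · rw [tt_one_a, mul_assoc, mul_assoc]
        exact dih_d (dih_a (dih_d ih))
      · rw [tt_one_b]; exact dih_a ih
      · rw [tt_succ]
        simp only [sig, tw_cons, tw_nil, tt_zero, del, pv_nil, mul_one, one_mul]
        exact ih
      · rw [tt_succ]
        simp only [sig, tw_cons, tw_nil, tt_zero, del, pv_cons, pv_nil, mul_one]
        exact dih_a ih
  | i + 2 =>
    induction w with
    | nil => rw [tw_nil]; exact dih_one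
    | cons s w ih =>
      rw [tw_cons]
      rcases tt_mem i s with h | h
      · rw [h, one_mul]; exact ih
      · rw [h]; exact dih_a ih

/-- chosen word -/
noncomputable def wd (g : Grig) : List Gen := (vg_surj g).choose

theorem vg_wd (g : Grig) : vg (wd g) = g := (vg_surj g).choose_spec

theorem Gam_of_tw_eq (g g' : Grig) (h : ∀ i : Fin 5, tw i (wd g) = tw i (wd g')) :
    g⁻¹ * g' ∈ Gam := by
  refine ⟨(wd g).reverse ++ wd g', ?_, ?_⟩
  · apply good_of_five
    intro i
    rw [tw_append, tw_reverse, h i, inv_mul_cancel]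
  · rw [vg_append, vg_reverse, vg_wd, vg_wd]

instance finite_quot_Gam : Finite (Grig ⧸ Gam) := by
  have : Finite dih := dih_finite
  apply Finite.of_injective
    (fun q : Grig ⧸ Gam => (fun i : Fin 5 => (⟨tw i (wd q.out), tw_mem_dih _ _⟩ : dih)))
  intro q q' h
  have h1 : ∀ i : Fin 5, tw i (wd q.out) = tw i (wd q'.out) := by
    intro i
    have := congrFun h i
    exact congrArg Subtype.val this
  have h2 := Gam_of_tw_eq _ _ h1
  rw [← QuotientGroup.eq] at h2
  rwa [QuotientGroup.out_eq', QuotientGroup.out_eq'] at h2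

/-! ### sections -/

/-- output bit of a letter -/
def outb : Gen → Bool → Bool
  | .a, x => !x
  | _, x => x

/-- section of a letter -/
def secl : Gen → Bool → List Gen
  | .a, _ => []
  | .b, false => [.a]
  | .b, true => [.c]
  | .c, false => [.a]
  | .c, true => [.d]
  | .d, false => []
  | .d, true => [.b]

/-- output bit of a word -/
def outw (x : Bool) : List Gen → Bool
  | [] => x
  | s :: w => outb s (outw x w)

/-- section word -/
def secw (x : Bool) : List Gen → List Gen
  | [] => []
  | s :: w => secl s (outw x w) ++ secw x w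

theorem pv_sec (x : Bool) (w : List Gen) (v : List Bool) :
    pv w (x :: v) = outw x w :: pv (secw x w) v := by
  induction w with
  | nil => rfl
  | cons s w ih =>
    rw [pv_cons, Equiv.Perm.mul_apply, ih, secw, pv_append, Equiv.Perm.mul_apply, outw]
    cases s <;> cases outw x w <;> rfl

theorem outw_not (x : Bool) (w : List Gen) : outw (!x) w = !(outw x w) := by
  induction w with
  | nil => rfl
  | cons s w ih =>
    simp only [outw, ih]
    cases s <;> cases outw x w <;> rfl

/-- number of letters different from a -/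
def nona : List Gen → ℕ
  | [] => 0
  | .a :: w => nona w
  | .b :: w => nona w + 1
  | .c :: w => nona w + 1
  | .d :: w => nona w + 1

theorem nona_cons {s : Gen} (hs : s ≠ .a) (w : List Gen) : nona (s :: w) = nona w + 1 := by
  cases s
  · exact absurd rfl hs
  all_goals rfl

theorem secw_length (x : Bool) (w : List Gen) : (secw x w).length ≤ nona w := by
  induction w with
  | nil => simp [secw]
  | cons s w ih =>
    rw [secw, List.length_append]
    cases s <;> cases outw x w <;> simp only [secl, nona, List.length_cons, List.length_nil] <;>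
      omega

theorem pair_reduce (s t : Gen) (hs : s ≠ .a) (ht : t ≠ .a) :
    ∃ z : List Gen, z.length ≤ 1 ∧ vg z = gen s * gen t := by
  have hx : ∀ x y : X3, ∃ z : List Gen, z.length ≤ 1 ∧ vg z = gen x.g * gen y.g := by
    intro x y
    by_cases h : x = y
    · subst h
      exact ⟨[], by simp, by rw [gen_sq]; rfl⟩
    · refine ⟨[(third x y).g], by simp, ?_⟩
      apply Subtype.ext
      rw [coe_vg, pv_cons, pv_nil, mul_one]
      exact (xp_mul x y h).symm
  have hg : ∀ s : Gen, s ≠ .a → ∃ x : X3, x.g = s := by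
    intro s hs
    cases s
    · exact absurd rfl hs
    · exact ⟨.b, rfl⟩
    · exact ⟨.c, rfl⟩
    · exact ⟨.d, rfl⟩
  obtain ⟨x, rfl⟩ := hg s hs
  obtain ⟨y, rfl⟩ := hg t ht
  exact hx x y

theorem halve (n : ℕ) : ∀ w : List Gen, w.length = n →
    ∃ w', vg w' = vg w ∧ 2 * nona w' ≤ n + 1 := by
  induction n using Nat.strong_induction_on with
  | _ n IH =>
    intro w hw
    match w, hw with
    | [], hw => exact ⟨[], rfl, by simp [nona]⟩
    | [s], hw =>
      refine ⟨[s], rfl, ?_⟩
      simp only [List.length_singleton] at hw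
      subst hw
      cases s <;> simp [nona]
    | s :: t :: r, hw =>
      simp only [List.length_cons] at hw
      by_cases hs : s = .a
      · subst hs
        obtain ⟨w', h1, h2⟩ := IH (t :: r).length (by simp only [List.length_cons]; omega)
          (t :: r) rfl
        refine ⟨.a :: w', by rw [vg_cons, vg_cons, h1], ?_⟩
        have : nona (.a :: w') = nona w' := rfl
        rw [this]
        simp only [List.length_cons] at h2
        omega
      · by_cases ht : t = .a
        · subst ht
          obtain ⟨w', h1, h2⟩ := IH r.length (by omega) r rfl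
          refine ⟨s :: .a :: w', by rw [vg_cons, vg_cons, vg_cons, vg_cons, h1], ?_⟩
          have : nona (s :: .a :: w') = nona w' + 1 := nona_cons hs _
          rw [this]
          omega
        · obtain ⟨z, hz, hzv⟩ := pair_reduce s t hs ht
          obtain ⟨w', h1, h2⟩ := IH (z ++ r).length (by
            simp only [List.length_append]; omega) (z ++ r) rfl
          refine ⟨w', ?_, ?_⟩
          · rw [h1, vg_append, hzv, vg_cons, vg_cons, mul_assoc]
          · simp only [List.length_append] at h2
            omega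

/-- sections of an element, with contraction -/
theorem exists_sections (g : Grig) : ∃ (x : Bool) (g0 g1 : Grig),
    (∀ v, (g : Equiv.Perm (List Bool)) (false :: v) = x :: (g0 : Equiv.Perm (List Bool)) v) ∧
    (∀ v, (g : Equiv.Perm (List Bool)) (true :: v) = (!x) :: (g1 : Equiv.Perm (List Bool)) v) ∧
    2 * wordLength g0 ≤ wordLength g + 1 ∧ 2 * wordLength g1 ≤ wordLength g + 1 := by
  obtain ⟨w, hw, hwl⟩ := exists_word g
  obtain ⟨w', h1, h2⟩ := halve w.length w rfl
  have hg : (g : Equiv.Perm (List Bool)) = pv w' := by rw [← hw, ← h1, coe_vg]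
  refine ⟨outw false w', vg (secw false w'), vg (secw true w'), ?_, ?_, ?_, ?_⟩
  · intro v; rw [hg, pv_sec, coe_vg]
  · intro v
    rw [hg, pv_sec, coe_vg]
    have := outw_not false w'
    rw [Bool.not_false] at this
    rw [this]
  · have := (wl_le (secw false w')).trans (secw_length false w')
    omega
  · have := (wl_le (secw true w')).trans (secw_length true w')
    omega

theorem Grig_nil (g : Grig) : (g : Equiv.Perm (List Bool)) [] = [] := by
  obtain ⟨w, rfl⟩ := vg_surj g
  rw [coe_vg]
  induction w with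
  | nil => rfl
  | cons s w ih => rw [pv_cons, Equiv.Perm.mul_apply, ih]; cases s <;> rfl

/-- `g` fixes the first level with the given coordinates -/
def Coord (g g0 g1 : Grig) : Prop :=
  (∀ v, (g : Equiv.Perm (List Bool)) (false :: v) = false :: (g0 : Equiv.Perm (List Bool)) v) ∧
    ∀ v, (g : Equiv.Perm (List Bool)) (true :: v) = true :: (g1 : Equiv.Perm (List Bool)) v

theorem Coord.one : Coord 1 1 1 := ⟨fun _ => rfl, fun _ => rfl⟩

theorem Coord.mul {g g0 g1 h h0 h1 : Grig} (hg : Coord g g0 g1) (hh : Coord h h0 h1) :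
    Coord (g * h) (g0 * h0) (g1 * h1) := by
  constructor
  · intro v
    rw [Subgroup.coe_mul, Equiv.Perm.mul_apply, hh.1, hg.1]; rfl
  · intro v
    rw [Subgroup.coe_mul, Equiv.Perm.mul_apply, hh.2, hg.2]; rfl

theorem Coord.inv {g g0 g1 : Grig} (hg : Coord g g0 g1) : Coord g⁻¹ g0⁻¹ g1⁻¹ := by
  constructor
  · intro v
    rw [Subgroup.coe_inv, Equiv.Perm.inv_eq_iff_eq, hg.1]
    simp
  · intro v
    rw [Subgroup.coe_inv, Equiv.Perm.inv_eq_iff_eq, hg.2]
    simp

theorem Coord.ext {g h g0 g1 : Grig} (hg : Coord g g0 g1) (hh : Coord h g0 g1) : g = h := by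
  apply Subtype.ext
  ext1 v
  match v with
  | [] => rw [Grig_nil, Grig_nil]
  | false :: v => rw [hg.1, hh.1]
  | true :: v => rw [hg.2, hh.2]

theorem Coord.unique {g g0 g1 h0 h1 : Grig} (hg : Coord g g0 g1) (hh : Coord g h0 h1) :
    g0 = h0 ∧ g1 = h1 := by
  constructor
  · apply Subtype.ext
    ext1 v
    have := (hg.1 v).symm.trans (hh.1 v)
    exact (List.cons.inj this).2
  · apply Subtype.ext
    ext1 v
    have := (hg.2 v).symm.trans (hh.2 v)
    exact (List.cons.inj this).2

theorem coord_comb {w0 w1 : List Gen} (h0 : Good w0) (h1 : Good w1) :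
    Coord (vg (comb w0 w1)) (vg w0) (vg w1) := by
  constructor
  · intro v; rw [coe_vg, coe_vg, pv_comb_false h0 h1]
  · intro v; rw [coe_vg, coe_vg, pv_comb_true h0 h1]

/-- second subgroup: both coordinates in the first one -/
def Del : Subgroup Grig where
  carrier := {g | ∃ g0 ∈ Gam, ∃ g1 ∈ Gam, Coord g g0 g1}
  one_mem' := ⟨1, Gam.one_mem, 1, Gam.one_mem, Coord.one⟩
  mul_mem' := by
    rintro _ _ ⟨g0, hg0, g1, hg1, hg⟩ ⟨h0, hh0, h1, hh1, hh⟩
    exact ⟨g0 * h0, Gam.mul_mem hg0 hh0, g1 * h1, Gam.mul_mem hg1 hh1, hg.mul hh⟩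
  inv_mem' := by
    rintro _ ⟨g0, hg0, g1, hg1, hg⟩
    exact ⟨g0⁻¹, Gam.inv_mem hg0, g1⁻¹, Gam.inv_mem hg1, hg.inv⟩

theorem Del_le : Del ≤ Gam := by
  rintro g ⟨g0, ⟨w0, hw0, rfl⟩, g1, ⟨w1, hw1, rfl⟩, hg⟩
  exact ⟨comb w0 w1, good_comb hw0 hw1, (coord_comb hw0 hw1).ext hg⟩

instance finite_quot_Del : Finite (Grig ⧸ Del) := by
  choose x g0 g1 h0 h1 _ _ using exists_sections
  apply Finite.of_injective (fun q : Grig ⧸ Del =>
    (x q.out, (QuotientGroup.mk (g0 q.out) : Grig ⧸ Gam), (QuotientGroup.mk (g1 q.out) : Grig ⧸ Gam)))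
  intro q q' h
  simp only [Prod.mk.injEq] at h
  obtain ⟨e1, e2, e3⟩ := h
  rw [QuotientGroup.eq] at e2 e3
  have h2 : (q.out)⁻¹ * q'.out ∈ Del := by
    cases hx : x q.out
    · refine ⟨_, e2, _, e3, ?_, ?_⟩
      · intro v
        rw [Subgroup.coe_mul, Equiv.Perm.mul_apply, h0, ← e1, hx, Subgroup.coe_inv,
          Equiv.Perm.inv_eq_iff_eq, h0, hx]
        simp
      · intro v
        rw [Subgroup.coe_mul, Equiv.Perm.mul_apply, h1, ← e1, hx, Subgroup.coe_inv,
          Equiv.Perm.inv_eq_iff_eq, h1, hx]
        simp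
    · refine ⟨_, e2, _, e3, ?_, ?_⟩
      · intro v
        rw [Subgroup.coe_mul, Equiv.Perm.mul_apply, h0, ← e1, hx, Subgroup.coe_inv,
          Equiv.Perm.inv_eq_iff_eq, h0, hx]
        simp
      · intro v
        rw [Subgroup.coe_mul, Equiv.Perm.mul_apply, h1, ← e1, hx, Subgroup.coe_inv,
          Equiv.Perm.inv_eq_iff_eq, h1, hx]
        simp
  rw [← QuotientGroup.eq] at h2
  rwa [QuotientGroup.out_eq', QuotientGroup.out_eq'] at h2

/-! ### the decomposition -/

/-- representative of the coset modulo `Del` -/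
noncomputable def rp (g : Grig) : Grig := (QuotientGroup.mk g : Grig ⧸ Del).out

theorem rp_mem (g : Grig) : (rp g)⁻¹ * g ∈ Del := by
  rw [← QuotientGroup.eq]
  exact QuotientGroup.out_eq' _

theorem rp_Gam {g : Grig} (hg : g ∈ Gam) : rp g ∈ Gam := by
  have h := Del_le (rp_mem g)
  have : rp g = g * ((rp g)⁻¹ * g)⁻¹ := by group
  rw [this]
  exact Gam.mul_mem hg (Gam.inv_mem h)

theorem rp_eq {g d : Grig} (hd : d ∈ Del) : rp (rp g * d) = rp g := by
  unfold rp
  congr 1
  have h1 : (QuotientGroup.mk ((QuotientGroup.mk g : Grig ⧸ Del).out * d) : Grig ⧸ Del) =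
      QuotientGroup.mk ((QuotientGroup.mk g : Grig ⧸ Del).out) :=
    QuotientGroup.mk_mul_of_mem _ hd
  rw [h1]
  exact QuotientGroup.out_eq' _

theorem rp_range_finite : (Set.range rp).Finite := by
  apply Set.Finite.subset (Set.finite_range (fun q : Grig ⧸ Del => q.out))
  rintro _ ⟨g, rfl⟩
  exact ⟨_, rfl⟩

/-- coordinates of the second factor -/
noncomputable def co (g : Grig) : Grig × Grig :=
  ((rp_mem g).choose, (rp_mem g).choose_spec.2.choose)

theorem co_fst_mem (g : Grig) : (co g).1 ∈ Gam := (rp_mem g).choose_spec.1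

theorem co_snd_mem (g : Grig) : (co g).2 ∈ Gam := (rp_mem g).choose_spec.2.choose_spec.1

theorem co_coord (g : Grig) : Coord ((rp g)⁻¹ * g) (co g).1 (co g).2 :=
  (rp_mem g).choose_spec.2.choose_spec.2

/-- the constant of the contraction -/
theorem exists_const : ∃ C : ℕ, ∀ g : Grig,
    2 * wordLength (co g).1 ≤ wordLength g + C ∧ 2 * wordLength (co g).2 ≤ wordLength g + C := by
  obtain ⟨C, hC⟩ := ((rp_range_finite.image (fun g => wordLength g⁻¹))).bddAbove
  refine ⟨C + 1, fun g => ?_⟩
  obtain ⟨x, g0, g1, h0, h1, l0, l1⟩ := exists_sections ((rp g)⁻¹ * g)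
  have hc := co_coord g
  have hx : x = false := by
    have := (hc.1 []).symm.trans (h0 [])
    exact (List.cons.inj this).1.symm
  subst hx
  have hcc : Coord ((rp g)⁻¹ * g) g0 g1 := ⟨h0, fun v => by rw [h1]; rfl⟩
  obtain ⟨e0, e1⟩ := hc.unique hcc
  rw [e0, e1]
  have h2 := wl_mul (rp g)⁻¹ g
  have h3 : wordLength (rp g)⁻¹ ≤ C := hC ⟨rp g, ⟨g, rfl⟩, rfl⟩
  omega

/-- the constant -/
noncomputable def CC : ℕ := exists_const.choose

theorem co_fst_le (g : Grig) : 2 * wordLength (co g).1 ≤ wordLength g + CC :=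
  (exists_const.choose_spec g).1

theorem co_snd_le (g : Grig) : 2 * wordLength (co g).2 ≤ wordLength g + CC :=
  (exists_const.choose_spec g).2

/-- good word of an element of `Gam` -/
noncomputable def gw (g : Grig) : List Gen :=
  open Classical in if h : g ∈ Gam then h.choose else []

theorem gw_good (g : Grig) : Good (gw g) := by
  unfold gw
  split_ifs with h
  · exact h.choose_spec.1
  · exact good_nil

theorem vg_gw {g : Grig} (h : g ∈ Gam) : vg (gw g) = g := by
  unfold gw
  rw [dif_pos h]
  exact h.choose_spec.2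

/-- composition of an element from its decomposition -/
theorem decomp_comb {g g0 g1 : Grig} (h0 : g0 ∈ Gam) (h1 : g1 ∈ Gam) {w0 w1 : List Gen}
    (k0 : Good w0) (k1 : Good w1) (e0 : vg w0 = g0) (e1 : vg w1 = g1) :
    rp (rp g * vg (comb w0 w1)) = rp g ∧ co (rp g * vg (comb w0 w1)) = (g0, g1) := by
  have hc := coord_comb k0 k1
  rw [e0, e1] at hc
  have hd : vg (comb w0 w1) ∈ Del := ⟨g0, h0, g1, h1, hc⟩
  have hr := rp_eq (g := g) hd
  refine ⟨hr, ?_⟩
  have h2 := co_coord (rp g * vg (comb w0 w1))
  rw [hr, inv_mul_cancel_left] at h2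
  obtain ⟨a0, a1⟩ := h2.unique hc
  exact Prod.ext a0 a1

/-- recomposition -/
theorem recomp (g : Grig) {w0 w1 : List Gen} (k0 : Good w0) (k1 : Good w1)
    (e0 : vg w0 = (co g).1) (e1 : vg w1 = (co g).2) : rp g * vg (comb w0 w1) = g := by
  have hc := coord_comb k0 k1
  rw [e0, e1] at hc
  rw [hc.ext (co_coord g)]
  group

end Pool.Agent.H57.EDT
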