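import Pool.Agent.H57.EDT.Core

/-! Counting the words of an EDT0L language with finite-to-one evaluation in a torsion group. -/

namespace Pool.Agent.H57.EDT

theorem size_pow_le (n J : ℕ) (hJ : J ≠ 0) : Nat.size (n ^ J) ≤ J * Nat.size n := by
  rw [Nat.size_le]
  calc n ^ J < (2 ^ Nat.size n) ^ J := Nat.pow_lt_pow_left (Nat.lt_size_self n) hJ
    _ = 2 ^ (J * Nat.size n) := by rw [← pow_mul, mul_comm]

/-- number of lists of length at most `N` -/
theorem card_lists_le {H : Type*} [Fintype H] (N : ℕ) (S : Set (List H))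
    (hS : ∀ r ∈ S, r.length ≤ N) :
    S.Finite ∧ S.ncard ≤ (Fintype.card H + 1) ^ N := by
  classical
  let f : List H → (Fin N → Option H) := fun r i => r[(i : ℕ)]?
  have hinj : Set.InjOn f S := by
    intro r hr r' hr' he
    apply List.ext_getElem?
    intro i
    by_cases hi : i < N
    · exact congrFun he ⟨i, hi⟩
    · rw [List.getElem?_eq_none (by have := hS r hr; omega),
        List.getElem?_eq_none (by have := hS r' hr'; omega)]
  have hfin : S.Finite := Set.Finite.of_finite_image (Set.toFinite _) hinj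
  refine ⟨hfin, ?_⟩
  rw [← Set.InjOn.ncard_image hinj]
  calc (f '' S).ncard ≤ (Set.univ : Set (Fin N → Option H)).ncard :=
        Set.ncard_le_ncard (Set.subset_univ _) (Set.toFinite _)
    _ = (Fintype.card H + 1) ^ N := by
        rw [Set.ncard_univ, Nat.card_eq_fintype_card]
        simp

section count

variable {C H Γ σ : Type*} [Fintype C] [Fintype H] [Fintype σ] [Group Γ] (h : H → C → List C)
  (M : DFA H σ) (c0 : C) (T : Set C)

/-- Every generated word of length `≤ n` has a short derivation. -/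
theorem short_derivation (htors : ∀ g : Γ, ∃ n : ℕ, 0 < n ∧ g ^ n = 1) (F : C → Γ)
    (hfin : ∀ g : Γ, {u | u ∈ K h M c0 T ∧ val F u = g}.Finite) (n : ℕ) (u : List C)
    (hu : u ∈ K h M c0 T) (hn : u.length ≤ n) :
    ∃ r ∈ M.accepts, run h r [c0] = u ∧ r.length ≤
      Fintype.card σ * 2 ^ Fintype.card C *
        ((Fintype.card C + 2) * Nat.size n + 1) ^ Fintype.card C *
        Fintype.card C ^ Fintype.card C := by
  classical
  obtain ⟨hT, r0, hr0, hr0u⟩ := hu
  -- a derivation of minimal length
  have hex : ∃ m : ℕ, ∃ r ∈ M.accepts, run h r [c0] = u ∧ r.length = m :=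
    ⟨_, r0, hr0, hr0u, rfl⟩
  obtain ⟨r, hr, hru, hrm⟩ := Nat.find_spec hex
  have hmin : ∀ r' ∈ M.accepts, run h r' [c0] = u → r.length ≤ r'.length := by
    intro r' h1 h2
    rw [hrm]
    exact Nat.find_min' hex ⟨r', h1, h2, rfl⟩
  refine ⟨r, hr, hru, ?_⟩
  set k := Fintype.card C with hk
  set J := k + 2 with hJ
  set P := J * Nat.size n with hP
  have hJ0 : J ≠ 0 := by omega
  -- contents are short
  have hlen : ∀ t, ∀ x ∈ run h (r.take t) [c0], (run h (r.drop t) [x]).length ≤ n := by
    intro t x hx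
    have e : run h r [c0] = run h (r.drop t) (run h (r.take t) [c0]) := by
      rw [← run_append, List.take_append_drop]
    have h1 : (run h (r.drop t) [x]).length ≤ u.length := by
      rw [← hru, e, run_length h (r.drop t) (run h (r.take t) [c0])]
      exact List.single_le_sum (by simp) _
        (List.mem_map_of_mem (f := fun y => (run h (r.drop t) [y]).length) hx)
    omega
  have hsz : ∀ t, ∀ x ∈ run h (r.take t) [c0],
      Nat.size ((run h (r.drop t) [x]).length ^ J) ≤ P := by
    intro t x hx
    calc Nat.size ((run h (r.drop t) [x]).length ^ J)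
        ≤ Nat.size (n ^ J) := Nat.size_le_size (Nat.pow_le_pow_left (hlen t x hx) J)
      _ ≤ P := size_pow_le n J hJ0
  -- configurations
  let prof : ℕ → C → Fin (P + 1) := fun t x =>
    if hx : x ∈ run h (r.take t) [c0] then
      ⟨Nat.size ((run h (r.drop t) [x]).length ^ J), Nat.lt_succ_of_le (hsz t x hx)⟩
    else 0
  let conf : ℕ → σ × Finset C × (C → Fin (P + 1)) := fun t =>
    (M.eval (r.take t), (run h (r.take t) [c0]).toFinset, prof t)
  -- same content for s < t with equal configurations
  have hsame : ∀ s t, s ≤ t → t ≤ r.length → conf s = conf t →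
      ∃ lam : C → C, ∀ x ∈ run h (r.take s) [c0],
        run h (r.drop s) [x] = run h (r.drop t) [lam x] := by
    intro s t hst htr hc
    simp only [conf, Prod.mk.injEq] at hc
    obtain ⟨hc1, hc2, hc3⟩ := hc
    have htake : r.take t = r.take s ++ (r.drop s).take (t - s) := by
      rw [← List.take_add, Nat.add_sub_cancel' hst]
    have hdrop : r.drop s = (r.drop s).take (t - s) ++ r.drop t := by
      have h1 : r.drop t = (r.drop s).drop (t - s) := by
        rw [List.drop_drop, Nat.add_sub_cancel' hst]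
      rw [h1, List.take_append_drop]
    have hall : r.take s ++ (r.drop s).take (t - s) ++ r.drop t = r := by
      rw [← htake, List.take_append_drop]
    have hmem : ∀ x, x ∈ run h (r.take t) [c0] ↔ x ∈ run h (r.take s) [c0] := by
      intro x
      rw [← List.mem_toFinset, ← List.mem_toFinset, hc2]
    obtain ⟨lam, hlam⟩ := same_content h M c0 T htors F hfin (r.take s)
      ((r.drop s).take (t - s)) (r.drop t) (by rw [hall]; exact hr)
      (by rw [← htake]; exact hc1.symm)
      (by rw [← htake]; exact hmem)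
      (by rw [hall, hru]; exact hT)
      (by
        intro x hx
        rw [← hdrop]
        have h1 := congrFun hc3 x
        simp only [prof] at h1
        rw [dif_pos hx, dif_pos ((hmem x).2 hx)] at h1
        exact Fin.mk.inj_iff.1 h1)
    refine ⟨lam, fun x hx => ?_⟩
    have := hlam x hx
    rw [← hdrop] at this
    exact this
  -- the last time with a given configuration
  have hlast : ∀ t : Fin (r.length + 1), ∃ τ : ℕ, (t : ℕ) ≤ τ ∧ τ ≤ r.length ∧
      conf t = conf τ ∧ ∀ s, s ≤ r.length → conf s = conf τ → s ≤ τ := by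
    intro t
    let S : Finset ℕ := (Finset.range (r.length + 1)).filter (fun s => conf s = conf t)
    have hS : S.Nonempty := ⟨t, Finset.mem_filter.2 ⟨Finset.mem_range.2 t.isLt, rfl⟩⟩
    refine ⟨S.max' hS, ?_, ?_, ?_, ?_⟩
    · apply Finset.le_max'
      exact Finset.mem_filter.2 ⟨Finset.mem_range.2 t.isLt, rfl⟩
    · have := (Finset.mem_filter.1 (Finset.max'_mem S hS)).1
      exact Nat.lt_succ_iff.1 (Finset.mem_range.1 this)
    · exact (Finset.mem_filter.1 (Finset.max'_mem S hS)).2.symm
    · intro s hs hcs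
      apply Finset.le_max'
      exact Finset.mem_filter.2 ⟨Finset.mem_range.2 (by omega),
        hcs.trans (Finset.mem_filter.1 (Finset.max'_mem S hS)).2⟩
  choose τ hτ1 hτ2 hτ3 hτ4 using hlast
  have hlam : ∀ t : Fin (r.length + 1), ∃ lam : C → C, ∀ x ∈ run h (r.take t) [c0],
        run h (r.drop t) [x] = run h (r.drop (τ t)) [lam x] :=
    fun t => hsame t (τ t) (hτ1 t) (hτ2 t) (hτ3 t)
  choose lam hlam using hlam
  -- injectivity
  have hinj : Function.Injective
      (fun t : Fin (r.length + 1) => (conf t, lam t)) := by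
    have aux : ∀ s t : Fin (r.length + 1), s < t → conf s = conf t → lam s = lam t → False := by
      intro s t hst hc hl
      have hττ : τ s = τ t := by
        apply le_antisymm
        · apply hτ4 t _ (hτ2 s)
          rw [← hτ3 s, hc, hτ3 t]
        · apply hτ4 s _ (hτ2 t)
          rw [← hτ3 t, ← hc, hτ3 s]
      have hc' := hc
      simp only [conf, Prod.mk.injEq] at hc'
      obtain ⟨hc1, hc2, -⟩ := hc'
      have hmem : ∀ x, x ∈ run h (r.take t) [c0] ↔ x ∈ run h (r.take s) [c0] := by
        intro x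
        rw [← List.mem_toFinset, ← List.mem_toFinset, hc2]
      have hcont : ∀ x ∈ run h (r.take s) [c0],
          run h (r.drop s) [x] = run h (r.drop t) [x] := by
        intro x hx
        rw [hlam s x hx, hlam t x ((hmem x).2 hx), hττ, hl]
      -- the shorter derivation
      have hacc : r.take s ++ r.drop t ∈ M.accepts := by
        have h2 : r.take t ++ r.drop t ∈ M.accepts := by rw [List.take_append_drop]; exact hr
        rw [DFA.mem_accepts] at h2 ⊢
        simp only [DFA.eval, DFA.evalFrom_of_append] at h2 hc1 ⊢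
        rw [hc1]; exact h2
      have hrun : run h (r.take s ++ r.drop t) [c0] = u := by
        rw [run_append, run_flat]
        have e2 : run h r [c0] =
            (run h (r.take s) [c0]).flatMap (fun x => run h (r.drop s) [x]) := by
          rw [← run_flat, ← run_append, List.take_append_drop]
        rw [← hru, e2]
        apply List.flatMap_congr
        intro x hx
        exact (hcont x hx).symm
      have := hmin _ hacc hrun
      simp only [List.length_append, List.length_take, List.length_drop] at this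
      have hs := s.isLt
      have ht := t.isLt
      have hst' : (s : ℕ) < t := hst
      omega
    intro s t he
    simp only [Prod.mk.injEq] at he
    rcases lt_trichotomy s t with hlt | heq | hgt
    · exact (aux s t hlt he.1 he.2).elim
    · exact heq
    · exact (aux t s hgt he.1.symm he.2.symm).elim
  have hcard := Fintype.card_le_of_injective _ hinj
  simp only [Fintype.card_fin, Fintype.card_prod, Fintype.card_finset, Fintype.card_fun]
    at hcard
  rw [← hk] at hcard
  have e : Fintype.card σ * (2 ^ k * (P + 1) ^ k) * k ^ k =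
      Fintype.card σ * 2 ^ k * (P + 1) ^ k * k ^ k := by ring
  rw [e] at hcard
  omega

/-- Growth bound for the set of generated words. -/
theorem growth_K (htors : ∀ g : Γ, ∃ n : ℕ, 0 < n ∧ g ^ n = 1) (F : C → Γ)
    (hfin : ∀ g : Γ, {u | u ∈ K h M c0 T ∧ val F u = g}.Finite) :
    ∃ D : ℕ, ∀ n : ℕ, {u | u ∈ K h M c0 T ∧ u.length ≤ n}.Finite ∧
      {u | u ∈ K h M c0 T ∧ u.length ≤ n}.ncard ≤
        2 ^ (D * (Nat.log 2 n + 1) ^ Fintype.card C) := by
  classical
  set k := Fintype.card C with hk
  set E := Fintype.card σ * 2 ^ k * (k + 3) ^ k * k ^ k with hE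
  refine ⟨Nat.size (Fintype.card H + 1) * E, fun n => ?_⟩
  have hsd := fun u hu => short_derivation h M c0 T htors F hfin n u hu
  -- bound on the length of a derivation
  have hsize : Nat.size n ≤ Nat.log 2 n + 1 := by
    rw [Nat.size_le]
    exact Nat.lt_pow_succ_log_self (by norm_num) n
  have hbound : Fintype.card σ * 2 ^ k * ((k + 2) * Nat.size n + 1) ^ k * k ^ k ≤
      E * (Nat.log 2 n + 1) ^ k := by
    have h1 : ((k + 2) * Nat.size n + 1) ^ k ≤ ((k + 3) * (Nat.log 2 n + 1)) ^ k := by
      apply Nat.pow_le_pow_left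
      have := Nat.mul_le_mul_left (k + 2) hsize
      nlinarith
    calc Fintype.card σ * 2 ^ k * ((k + 2) * Nat.size n + 1) ^ k * k ^ k
        ≤ Fintype.card σ * 2 ^ k * ((k + 3) * (Nat.log 2 n + 1)) ^ k * k ^ k := by
          gcongr
      _ = E * (Nat.log 2 n + 1) ^ k := by rw [hE, mul_pow]; ring
  set N := E * (Nat.log 2 n + 1) ^ k with hN
  obtain ⟨hf1, hf2⟩ := card_lists_le N {r : List H | r.length ≤ N} (fun r hr => hr)
  have hsub : {u | u ∈ K h M c0 T ∧ u.length ≤ n} ⊆
      (fun r => run h r [c0]) '' {r : List H | r.length ≤ N} := by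
    rintro u ⟨hu, hn⟩
    obtain ⟨r, -, hru, hrl⟩ := hsd u hu hn
    exact ⟨r, le_trans hrl hbound, hru⟩
  have hfin2 := (hf1.image (fun r => run h r [c0]))
  refine ⟨hfin2.subset hsub, ?_⟩
  calc {u | u ∈ K h M c0 T ∧ u.length ≤ n}.ncard
      ≤ ((fun r => run h r [c0]) '' {r : List H | r.length ≤ N}).ncard :=
        Set.ncard_le_ncard hsub hfin2
    _ ≤ {r : List H | r.length ≤ N}.ncard := Set.ncard_image_le hf1
    _ ≤ (Fintype.card H + 1) ^ N := hf2
    _ ≤ (2 ^ Nat.size (Fintype.card H + 1)) ^ N :=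
        Nat.pow_le_pow_left (Nat.lt_size_self _).le _
    _ = 2 ^ (Nat.size (Fintype.card H + 1) * E * (Nat.log 2 n + 1) ^ k) := by
        rw [← pow_mul, mul_assoc]

end count

/-- **Growth bound.** An EDT0L language with a finite-to-one evaluation in a torsion group has
quasi-polynomial growth. -/
theorem growth_EDT0L {A Γ : Type} [Group Γ] (htors : ∀ g : Γ, ∃ n : ℕ, 0 < n ∧ g ^ n = 1)
    (ev : A → Γ) (L : Set (List A)) (hL : IsEDT0L L)
    (hfin : ∀ g : Γ, {w | w ∈ L ∧ (w.map ev).prod = g}.Finite) :
    ∃ k D : ℕ, ∀ n : ℕ, {w | w ∈ L ∧ w.length ≤ n}.Finite ∧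
      {w | w ∈ L ∧ w.length ≤ n}.ncard ≤ 2 ^ (D * (Nat.log 2 n + 1) ^ k) := by
  classical
  obtain ⟨C, H, fC, fH, ι, h, c0, R, hι, ⟨σ, fσ, M, rfl⟩, rfl⟩ := hL
  set F : C → Γ := fun x => if hx : ∃ a, ι a = x then ev hx.choose else 1 with hF
  have hFι : ∀ a, F (ι a) = ev a := by
    intro a
    have hx : ∃ b, ι b = ι a := ⟨a, rfl⟩
    simp only [hF]
    rw [dif_pos hx]
    congr 1
    exact hι hx.choose_spec
  have hval : ∀ w : List A, val F (w.map ι) = (w.map ev).prod := by
    intro w
    unfold val
    rw [List.map_map]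
    congr 1
    apply List.map_congr_left
    intro a _
    exact hFι a
  -- words over the range of ι
  have hlift : ∀ u : List C, (∀ y ∈ u, y ∈ Set.range ι) → ∃ w : List A, w.map ι = u := by
    intro u
    induction u with
    | nil => intro _; exact ⟨[], rfl⟩
    | cons x u ih =>
      intro hu
      obtain ⟨a, ha⟩ := hu x (by simp)
      obtain ⟨w, hw⟩ := ih (fun y hy => hu y (by simp [hy]))
      exact ⟨a :: w, by simp [ha, hw]⟩
  have hmap : ∀ u, u ∈ K h M c0 (Set.range ι) ↔
      ∃ w ∈ {w : List A | ∃ r ∈ M.accepts, run h r [c0] = w.map ι}, w.map ι = u := by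
    intro u
    constructor
    · rintro ⟨h1, r, hr, hru⟩
      obtain ⟨w, hw⟩ := hlift u h1
      exact ⟨w, ⟨r, hr, by rw [hru, hw]⟩, hw⟩
    · rintro ⟨w, ⟨r, hr, hrw⟩, hw⟩
      refine ⟨?_, r, hr, by rw [hrw, hw]⟩
      intro y hy
      rw [← hw] at hy
      obtain ⟨a, -, ha⟩ := List.mem_map.1 hy
      exact ⟨a, ha⟩
  have hfin' : ∀ g : Γ, {u | u ∈ K h M c0 (Set.range ι) ∧ val F u = g}.Finite := by
    intro g
    apply Set.Finite.subset ((hfin g).image (List.map ι))
    rintro u ⟨hu, hg⟩
    obtain ⟨w, hw, rfl⟩ := (hmap u).1 hu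
    exact ⟨w, ⟨hw, by rw [← hval]; exact hg⟩, rfl⟩
  obtain ⟨D, hD⟩ := growth_K h M c0 (Set.range ι) htors F hfin'
  refine ⟨Fintype.card C, D, fun n => ?_⟩
  obtain ⟨h1, h2⟩ := hD n
  have hinj : Function.Injective (List.map ι) := List.map_injective_iff.2 hι
  have himg : (List.map ι) '' {w | w ∈ {w : List A | ∃ r ∈ M.accepts,
      run h r [c0] = w.map ι} ∧ w.length ≤ n} ⊆
      {u | u ∈ K h M c0 (Set.range ι) ∧ u.length ≤ n} := by
    rintro _ ⟨w, ⟨hw, hn⟩, rfl⟩
    exact ⟨(hmap _).2 ⟨w, hw, rfl⟩, by simpa using hn⟩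
  refine ⟨Set.Finite.of_finite_image (h1.subset himg) hinj.injOn, ?_⟩
  rw [← Set.ncard_image_of_injective _ hinj]
  exact (Set.ncard_le_ncard himg h1).trans h2

end Pool.Agent.H57.EDT
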