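import Mathlib

/-! Eventually periodic sequences in a torsion group, and morphisms of free monoids whose
images have almost non-increasing weight. -/

namespace Pool.Agent.H57.EDT

/-- Eventually periodic sequence. -/
def EvPer {X : Type*} (s : ℕ → X) : Prop :=
  ∃ n0 p : ℕ, 0 < p ∧ ∀ j, n0 ≤ j → s (j + p) = s j

theorem EvPer.mult {X : Type*} {s : ℕ → X} {n0 p : ℕ}
    (h : ∀ j, n0 ≤ j → s (j + p) = s j) (m j : ℕ) (hj : n0 ≤ j) : s (j + p * m) = s j := by
  induction m with
  | zero => simp
  | succ m ih =>
    have h1 : j + p * (m + 1) = (j + p * m) + p := by ring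
    rw [h1, h _ (by omega), ih]

theorem EvPer.const {X : Type*} (x : X) : EvPer (fun _ => x) :=
  ⟨0, 1, one_pos, fun _ _ => rfl⟩

theorem EvPer.map {X Y : Type*} {s : ℕ → X} (f : X → Y) (h : EvPer s) :
    EvPer (fun j => f (s j)) := by
  obtain ⟨n0, p, hp, h⟩ := h
  exact ⟨n0, p, hp, fun j hj => by simp only [h j hj]⟩

theorem EvPer.map2 {X Y Z : Type*} {s : ℕ → X} {t : ℕ → Y} (f : X → Y → Z)
    (hs : EvPer s) (ht : EvPer t) : EvPer (fun j => f (s j) (t j)) := by
  obtain ⟨n0, p, hp, h⟩ := hs
  obtain ⟨n1, q, hq, h'⟩ := ht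
  refine ⟨max n0 n1, p * q, Nat.mul_pos hp hq, fun j hj => ?_⟩
  have h1 := EvPer.mult h q j (le_trans (le_max_left _ _) hj)
  have h2 := EvPer.mult h' p j (le_trans (le_max_right _ _) hj)
  rw [mul_comm q p] at h2
  simp only [h1, h2]

theorem EvPer.shift {X : Type*} {s : ℕ → X} (h : EvPer s) (k : ℕ) :
    EvPer (fun j => s (j + k)) := by
  obtain ⟨n0, p, hp, h⟩ := h
  refine ⟨n0, p, hp, fun j hj => ?_⟩
  show s (j + p + k) = s (j + k)
  have : j + p + k = (j + k) + p := by ring
  rw [this, h _ (by omega)]

theorem EvPer.unshift {X : Type*} {s : ℕ → X} {k : ℕ}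
    (h : EvPer (fun j => s (j + k))) : EvPer s := by
  obtain ⟨n0, p, hp, h⟩ := h
  refine ⟨n0 + k, p, hp, fun j hj => ?_⟩
  have := h (j - k) (by omega)
  simp only at this
  have e1 : j - k + p + k = j + p := by omega
  have e2 : j - k + k = j := by omega
  rwa [e1, e2] at this

theorem EvPer.finite_range {X : Type*} {s : ℕ → X} (h : EvPer s) : (Set.range s).Finite := by
  obtain ⟨n0, p, hp, h⟩ := h
  apply Set.Finite.subset ((Set.finite_lt_nat (n0 + p)).image s)
  rintro _ ⟨j, rfl⟩
  simp only [Set.mem_image, Set.mem_setOf_eq]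
  by_cases hj : j < n0 + p
  · exact ⟨j, hj, rfl⟩
  · refine ⟨n0 + (j - n0) % p, by have := Nat.mod_lt (j - n0) hp; omega, ?_⟩
    have h1 := EvPer.mult h ((j - n0) / p) (n0 + (j - n0) % p) (by omega)
    rw [← h1]
    congr 1
    have := Nat.mod_add_div (j - n0) p
    omega

/-- product of a list of eventually periodic sequences -/
theorem EvPer.list_prod {Γ X : Type*} [Monoid Γ] (l : List X) (a : X → ℕ → Γ)
    (h : ∀ x ∈ l, EvPer (a x)) : EvPer (fun j => (l.map (fun x => a x j)).prod) := by
  induction l with
  | nil => simpa using EvPer.const (1 : Γ)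
  | cons x l ih =>
    simp only [List.map_cons, List.prod_cons]
    exact EvPer.map2 (· * ·) (h x (by simp)) (ih (fun y hy => h y (by simp [hy])))

theorem EvPer.mul {Γ : Type*} [Mul Γ] {s t : ℕ → Γ} (hs : EvPer s) (ht : EvPer t) :
    EvPer (fun j => s j * t j) := EvPer.map2 (· * ·) hs ht

/-- iterating `s (j + p) = l j * s j * r j` -/
theorem iter_rec {Γ : Type*} [Group Γ] {s l r : ℕ → Γ} {p : ℕ} (hl : EvPer l) (hr : EvPer r)
    (h : ∀ j, s (j + p) = l j * s j * r j) (m : ℕ) :
    ∃ l' r' : ℕ → Γ, EvPer l' ∧ EvPer r' ∧ ∀ j, s (j + p * m) = l' j * s j * r' j := by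
  induction m with
  | zero => exact ⟨fun _ => 1, fun _ => 1, EvPer.const 1, EvPer.const 1, by simp⟩
  | succ m ih =>
    obtain ⟨l', r', hl', hr', h'⟩ := ih
    refine ⟨fun j => l (j + p * m) * l' j, fun j => r' j * r (j + p * m),
      (hl.shift _).mul hl', hr'.mul (hr.shift _), fun j => ?_⟩
    have h1 : j + p * (m + 1) = (j + p * m) + p := by ring
    rw [h1, h, h']
    group

/-- In a torsion group, `s (j+p) = l j * s j * r j` with `l`, `r` eventually periodic forces
`s` to be eventually periodic. -/
theorem evPer_of_rec {Γ : Type*} [Group Γ] (htors : ∀ g : Γ, ∃ n : ℕ, 0 < n ∧ g ^ n = 1)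
    {s l r : ℕ → Γ} {p : ℕ} (hp : 0 < p) (hl : EvPer l) (hr : EvPer r)
    (h : ∀ j, s (j + p) = l j * s j * r j) : EvPer s := by
  -- common period `c = p * (q1 * q2)`
  obtain ⟨l1, r1, hl1, hr1, h1⟩ := iter_rec hl hr h 1
  -- get periods of `(l, r)` jointly
  obtain ⟨n0, q, hq, hlr⟩ := EvPer.map2 (fun x y => (x, y)) hl hr
  obtain ⟨L, R, hL, hR, hLR⟩ := iter_rec hl hr h q
  -- we need `L`, `R` periodic with period `p * q`; rebuild them explicitly
  clear L R hL hR hLR l1 r1 hl1 hr1 h1
  have hl' : ∀ j, n0 ≤ j → l (j + q) = l j := fun j hj => (Prod.mk.inj (hlr j hj)).1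
  have hr' : ∀ j, n0 ≤ j → r (j + q) = r j := fun j hj => (Prod.mk.inj (hlr j hj)).2
  have key : ∀ m : ℕ, ∃ L R : ℕ → Γ, (∀ j, n0 ≤ j → L (j + p * q) = L j) ∧
      (∀ j, n0 ≤ j → R (j + p * q) = R j) ∧ ∀ j, s (j + p * m) = L j * s j * R j := by
    intro m
    induction m with
    | zero => exact ⟨fun _ => 1, fun _ => 1, by simp, by simp, by simp⟩
    | succ m ih =>
      obtain ⟨L, R, hL, hR, hs⟩ := ih
      refine ⟨fun j => l (j + p * m) * L j, fun j => R j * r (j + p * m), ?_, ?_, ?_⟩
      · intro j hj
        have e : j + p * q + p * m = (j + p * m) + q * p := by ring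
        simp only [hL j hj, e]
        rw [EvPer.mult hl' p _ (by omega)]
      · intro j hj
        have e : j + p * q + p * m = (j + p * m) + q * p := by ring
        simp only [hR j hj, e]
        rw [EvPer.mult hr' p _ (by omega)]
      · intro j
        have h1 : j + p * (m + 1) = (j + p * m) + p := by ring
        rw [h1, h, hs]
        group
  obtain ⟨L, R, hL, hR, hs⟩ := key q
  set c := p * q with hc
  have hcpos : 0 < c := Nat.mul_pos hp hq
  -- iterate along `c`
  have hpow : ∀ (t j : ℕ), n0 ≤ j → s (j + c * t) = (L j) ^ t * s j * (R j) ^ t := by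
    intro t
    induction t with
    | zero => intro j _; simp
    | succ t ih =>
      intro j hj
      have e : j + c * (t + 1) = (j + c * t) + c := by ring
      rw [e, hs, ih j hj, EvPer.mult hL t j hj, EvPer.mult hR t j hj, pow_succ', pow_succ]
      group
  choose ord hord using htors
  set T := ∏ i ∈ Finset.range c, (ord (L (n0 + i)) * ord (R (n0 + i))) with hT
  have hTpos : 0 < T := Finset.prod_pos (fun i _ => Nat.mul_pos (hord _).1 (hord _).1)
  have hwin : ∀ j, n0 ≤ j → (L j) ^ T = 1 ∧ (R j) ^ T = 1 := by
    intro j hj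
    have hmod := Nat.mod_lt (j - n0) hcpos
    have e : j = (n0 + (j - n0) % c) + c * ((j - n0) / c) := by
      have := Nat.mod_add_div (j - n0) c
      omega
    have hLj : L j = L (n0 + (j - n0) % c) := by
      conv_lhs => rw [e]
      exact EvPer.mult hL _ _ (by omega)
    have hRj : R j = R (n0 + (j - n0) % c) := by
      conv_lhs => rw [e]
      exact EvPer.mult hR _ _ (by omega)
    have hdvd : ord (L (n0 + (j - n0) % c)) * ord (R (n0 + (j - n0) % c)) ∣ T :=
      Finset.dvd_prod_of_mem (fun i => ord (L (n0 + i)) * ord (R (n0 + i)))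
        (Finset.mem_range.2 hmod)
    constructor
    · rw [hLj]
      obtain ⟨k, hk⟩ := (Dvd.intro _ rfl : ord (L (n0 + (j - n0) % c)) ∣ _).trans hdvd
      rw [hk, pow_mul, (hord _).2, one_pow]
    · rw [hRj]
      obtain ⟨k, hk⟩ := (Dvd.intro_left _ rfl : ord (R (n0 + (j - n0) % c)) ∣ _).trans hdvd
      rw [hk, pow_mul, (hord _).2, one_pow]
  refine ⟨n0, c * T, Nat.mul_pos hcpos hTpos, fun j hj => ?_⟩
  rw [hpow T j hj, (hwin j hj).1, (hwin j hj).2]
  simp

/-- extension of a letter map to words -/
def ext {C : Type*} (φ : C → List C) (u : List C) : List C := u.flatMap φ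

theorem ext_append {C : Type*} (φ : C → List C) (u v : List C) :
    ext φ (u ++ v) = ext φ u ++ ext φ v := by simp [ext]

theorem ext_iter_append {C : Type*} (φ : C → List C) (j : ℕ) (u v : List C) :
    (ext φ)^[j] (u ++ v) = (ext φ)^[j] u ++ (ext φ)^[j] v := by
  induction j generalizing u v with
  | zero => rfl
  | succ j ih => simp only [Function.iterate_succ, Function.comp, ext_append, ih]

theorem ext_iter_nil {C : Type*} (φ : C → List C) (j : ℕ) :
    (ext φ)^[j] [] = [] := by
  induction j with
  | zero => rfl
  | succ j ih => simp only [Function.iterate_succ, Function.comp]; exact ih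

/-- the group element of the `j`-th iterate of a word -/
def val {C Γ : Type*} [Monoid Γ] (F : C → Γ) (u : List C) : Γ := (u.map F).prod

theorem val_append {C Γ : Type*} [Monoid Γ] (F : C → Γ) (u v : List C) :
    val F (u ++ v) = val F u * val F v := by simp [val]

theorem val_nil {C Γ : Type*} [Monoid Γ] (F : C → Γ) : val F ([] : List C) = 1 := by simp [val]

/-- the sequence of group elements of the iterates of a word is the product of the sequences
of its letters -/
theorem val_iter_eq {C Γ : Type*} [Monoid Γ] (F : C → Γ) (φ : C → List C) (j : ℕ) (u : List C) :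
    val F ((ext φ)^[j] u) = (u.map (fun x => val F ((ext φ)^[j] [x]))).prod := by
  induction u with
  | nil => simp [ext_iter_nil, val]
  | cons x u ih =>
    have : x :: u = [x] ++ u := rfl
    rw [this, ext_iter_append, val_append, ih]
    simp

theorem evPer_word {C Γ : Type*} [Monoid Γ] (F : C → Γ) (φ : C → List C) (u : List C)
    (h : ∀ x ∈ u, EvPer (fun j => val F ((ext φ)^[j] [x]))) :
    EvPer (fun j => val F ((ext φ)^[j] u)) := by
  have := EvPer.list_prod u (fun x j => val F ((ext φ)^[j] [x])) h
  simpa only [← val_iter_eq] using this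

section periodicity

variable {C Γ : Type*} [Group Γ]

/-- one or several steps along heavy letters -/
def Chain (F : C → Γ) (φ : C → List C) (p : ℕ) (x y : C) : Prop :=
  ∃ l r : ℕ → Γ, EvPer l ∧ EvPer r ∧
    ∀ j, val F ((ext φ)^[j + p] [x]) = l j * val F ((ext φ)^[j] [y]) * r j

theorem Chain.refl (F : C → Γ) (φ : C → List C) (x : C) : Chain F φ 0 x x :=
  ⟨fun _ => 1, fun _ => 1, EvPer.const 1, EvPer.const 1, by simp⟩

theorem Chain.trans {F : C → Γ} {φ : C → List C} {p q : ℕ} {x y z : C}
    (h1 : Chain F φ p x y) (h2 : Chain F φ q y z) : Chain F φ (p + q) x z := by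
  obtain ⟨l, r, hl, hr, h⟩ := h1
  obtain ⟨l', r', hl', hr', h'⟩ := h2
  refine ⟨fun j => l (j + q) * l' j, fun j => r' j * r (j + q), (hl.shift q).mul hl',
    hr'.mul (hr.shift q), fun j => ?_⟩
  have e : j + (p + q) = (j + q) + p := by ring
  rw [e, h, h']
  group

theorem Chain.step {F : C → Γ} {φ : C → List C} {x y : C} {L R : List C}
    (h : φ x = L ++ [y] ++ R)
    (hL : ∀ z ∈ L, EvPer (fun j => val F ((ext φ)^[j] [z])))
    (hR : ∀ z ∈ R, EvPer (fun j => val F ((ext φ)^[j] [z]))) : Chain F φ 1 x y := by
  refine ⟨fun j => val F ((ext φ)^[j] L), fun j => val F ((ext φ)^[j] R),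
    evPer_word F φ L hL, evPer_word F φ R hR, fun j => ?_⟩
  have e : (ext φ)^[j + 1] [x] = (ext φ)^[j] (φ x) := by
    rw [Function.iterate_succ, Function.comp]
    congr 1
    simp [ext]
  rw [e, h, ext_iter_append, ext_iter_append, val_append, val_append]

theorem Chain.good {F : C → Γ} {φ : C → List C} {p : ℕ} {x y : C}
    (h : Chain F φ p x y) (hy : EvPer (fun j => val F ((ext φ)^[j] [y]))) :
    EvPer (fun j => val F ((ext φ)^[j] [x])) := by
  obtain ⟨l, r, hl, hr, h⟩ := h
  apply EvPer.unshift (k := p)
  simp only [h]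
  exact (hl.mul hy).mul hr

theorem Chain.loop (htors : ∀ g : Γ, ∃ n : ℕ, 0 < n ∧ g ^ n = 1)
    {F : C → Γ} {φ : C → List C} {p : ℕ} {x : C} (hp : 0 < p)
    (h : Chain F φ p x x) : EvPer (fun j => val F ((ext φ)^[j] [x])) := by
  obtain ⟨l, r, hl, hr, h⟩ := h
  exact evPer_of_rec htors hp hl hr h

/-- at most one heavy letter -/
theorem split_heavy {v : C → ℕ} {W : ℕ} (u : List C)
    (hsum : (u.map v).sum < 2 * W) :
    (∀ y ∈ u, v y < W) ∨ ∃ L y R, u = L ++ [y] ++ R ∧ W ≤ v y ∧ (∀ z ∈ L, v z < W) ∧
      ∀ z ∈ R, v z < W := by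
  by_cases h : ∀ y ∈ u, v y < W
  · exact Or.inl h
  · right
    push Not at h
    obtain ⟨y, hy, hyW⟩ := h
    obtain ⟨L, R, rfl⟩ := List.append_of_mem hy
    have hs : (L.map v).sum + (R.map v).sum < W := by
      have : ((L ++ y :: R).map v).sum = (L.map v).sum + (v y + (R.map v).sum) := by simp
      omega
    refine ⟨L, y, R, by simp, hyW, fun z hz => ?_, fun z hz => ?_⟩
    · have := List.single_le_sum (l := L.map v) (by simp) (v z) (List.mem_map_of_mem hz)
      omega
    · have := List.single_le_sum (l := R.map v) (by simp) (v z) (List.mem_map_of_mem hz)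
      omega

/-- Periodicity: if one application of `φ` multiplies weights by at most `θ`, with
`θ ^ (card C + 1) < 2`, then the group elements of the iterates of each letter form an
eventually periodic sequence. -/
theorem periodic_letters [Fintype C] (htors : ∀ g : Γ, ∃ n : ℕ, 0 < n ∧ g ^ n = 1)
    (F : C → Γ) (φ : C → List C) (v : C → ℕ) (B : Set C) (θ : ℝ) (hθ1 : 1 ≤ θ)
    (hθ : θ ^ (Fintype.card C + 1) < 2)
    (hφB : ∀ x ∈ B, ∀ y ∈ φ x, y ∈ B)
    (hF : ∀ x ∈ B, v x = 0 → F x = 1)
    (hv : ∀ x ∈ B, (((φ x).map v).sum : ℝ) ≤ θ * v x) :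
    ∀ x ∈ B, EvPer (fun j => val F ((ext φ)^[j] [x])) := by
  classical
  -- letters of weight 0
  have h0 : ∀ j (u : List C), (∀ x ∈ u, x ∈ B ∧ v x = 0) → val F ((ext φ)^[j] u) = 1 := by
    intro j
    induction j with
    | zero =>
      intro u hu
      simp only [Function.iterate_zero, id]
      unfold val
      apply List.prod_eq_one
      intro g hg
      obtain ⟨x, hx, rfl⟩ := List.mem_map.1 hg
      exact hF x (hu x hx).1 (hu x hx).2
    | succ j ih =>
      intro u hu
      rw [Function.iterate_succ, Function.comp]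
      apply ih
      intro y hy
      simp only [ext, List.mem_flatMap] at hy
      obtain ⟨x, hx, hyx⟩ := hy
      refine ⟨hφB x (hu x hx).1 y hyx, ?_⟩
      have h1 := hv x (hu x hx).1
      rw [(hu x hx).2] at h1
      simp only [Nat.cast_zero, mul_zero] at h1
      have h2 : ((φ x).map v).sum = 0 := by
        have : (((φ x).map v).sum : ℝ) ≤ 0 := by exact_mod_cast h1
        have : ((φ x).map v).sum ≤ 0 := by exact_mod_cast this
        omega
      have := List.single_le_sum (l := (φ x).map v) (by simp) (v y) (List.mem_map_of_mem hyx)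
      omega
  -- strong induction on the weight
  have main : ∀ W : ℕ, ∀ x ∈ B, v x = W → EvPer (fun j => val F ((ext φ)^[j] [x])) := by
    intro W
    induction W using Nat.strong_induction_on with
    | _ W IH =>
      intro x hx hvx
      rcases Nat.eq_zero_or_pos W with hW | hW
      · have : (fun j => val F ((ext φ)^[j] [x])) = fun _ => (1 : Γ) := by
          funext j
          apply h0
          intro y hy
          simp only [List.mem_singleton] at hy
          subst hy
          exact ⟨hx, by omega⟩
        rw [this]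
        exact EvPer.const 1
      · by_contra hbad
        -- walk along heavy letters
        have hstep : ∀ i ≤ Fintype.card C, ∀ z ∈ B, (v z : ℝ) ≤ θ ^ i * W →
            ¬ EvPer (fun j => val F ((ext φ)^[j] [z])) →
            ∃ y ∈ B, (v y : ℝ) ≤ θ ^ (i + 1) * W ∧
              ¬ EvPer (fun j => val F ((ext φ)^[j] [y])) ∧ Chain F φ 1 z y := by
          intro i hi z hz hvz hzbad
          have hsumR : (((φ z).map v).sum : ℝ) ≤ θ ^ (i + 1) * W := by
            calc (((φ z).map v).sum : ℝ) ≤ θ * v z := hv z hz
              _ ≤ θ * (θ ^ i * W) := by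
                  apply mul_le_mul_of_nonneg_left hvz (by linarith)
              _ = θ ^ (i + 1) * W := by ring
          have hpow : θ ^ (i + 1) < 2 := by
            refine lt_of_le_of_lt ?_ hθ
            exact pow_le_pow_right₀ hθ1 (by omega)
          have hWR : (0 : ℝ) < W := by exact_mod_cast hW
          have hsum : ((φ z).map v).sum < 2 * W := by
            have : (((φ z).map v).sum : ℝ) < 2 * W := lt_of_le_of_lt hsumR (by nlinarith)
            exact_mod_cast this
          rcases split_heavy (φ z) hsum with hl | ⟨L, y, R, hu, hyW, hL, hR⟩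
          · exfalso
            apply hzbad
            apply EvPer.unshift (k := 1)
            have e : (fun j => val F ((ext φ)^[j + 1] [z])) =
                fun j => val F ((ext φ)^[j] (φ z)) := by
              funext j
              rw [Function.iterate_succ, Function.comp]
              congr 2
              simp [ext]
            rw [e]
            apply evPer_word
            intro y hy
            exact IH (v y) (hl y hy) y (hφB z hz y hy) rfl
          · have hyB : y ∈ B := hφB z hz y (by rw [hu]; simp)
            have hch : Chain F φ 1 z y := by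
              apply Chain.step hu
              · intro w hw
                exact IH (v w) (hL w hw) w (hφB z hz w (by rw [hu]; simp [hw])) rfl
              · intro w hw
                exact IH (v w) (hR w hw) w (hφB z hz w (by rw [hu]; simp [hw])) rfl
            refine ⟨y, hyB, ?_, fun hgood => hzbad (hch.good hgood), hch⟩
            refine le_trans ?_ hsumR
            have := List.single_le_sum (l := (φ z).map v) (by simp) (v y)
              (List.mem_map_of_mem (by rw [hu]; simp))
            exact_mod_cast this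
        -- build the walk
        have hwalk : ∃ f : ℕ → C, f 0 = x ∧ ∀ i ≤ Fintype.card C + 1,
            f i ∈ B ∧ (v (f i) : ℝ) ≤ θ ^ i * W ∧
            ¬ EvPer (fun j => val F ((ext φ)^[j] [f i])) ∧
            ∀ i' < i, Chain F φ (i - i') (f i') (f i) := by
          choose! nxt hn1 hn2 hn3 hn4 using hstep
          let f : ℕ → C := fun i => Nat.rec x (fun k z => nxt k z) i
          have fs : ∀ i, f (i + 1) = nxt i (f i) := fun i => rfl
          refine ⟨f, rfl, ?_⟩
          intro i
          induction i with
          | zero =>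
            intro _
            refine ⟨hx, by simp [f, hvx], hbad, fun i' hi' => absurd hi' (Nat.not_lt_zero _)⟩
          | succ i ih =>
            intro hi
            obtain ⟨a1, a2, a3, a4⟩ := ih (by omega)
            have hi' : i ≤ Fintype.card C := by omega
            refine ⟨?_, ?_, ?_, ?_⟩
            · rw [fs]; exact hn1 i hi' (f i) a1 a2 a3
            · rw [fs]; exact hn2 i hi' (f i) a1 a2 a3
            · rw [fs]; exact hn3 i hi' (f i) a1 a2 a3
            · intro i' hi1
              have hc : Chain F φ 1 (f i) (f (i + 1)) := by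
                rw [fs]; exact hn4 i hi' (f i) a1 a2 a3
              rcases Nat.lt_or_ge i' i with hlt | hge
              · have := (a4 i' hlt).trans hc
                have e : i - i' + 1 = i + 1 - i' := by omega
                rwa [e] at this
              · have : i' = i := by omega
                subst this
                have e : i' + 1 - i' = 1 := by omega
                rw [e]; exact hc
        obtain ⟨f, -, hf⟩ := hwalk
        -- pigeonhole
        obtain ⟨i, j, hij, hfij⟩ : ∃ i j : Fin (Fintype.card C + 1), i ≠ j ∧ f i = f j := by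
          apply Fintype.exists_ne_map_eq_of_card_lt (fun i : Fin (Fintype.card C + 1) => f i)
          simp
        have hfin : ∀ i j : Fin (Fintype.card C + 1), i < j → f i = f j → False := by
          intro i j hlt he
          obtain ⟨-, -, b3, b4⟩ := hf j (by omega)
          have hch := b4 i hlt
          rw [he] at hch
          exact b3 (hch.loop htors (by omega))
        rcases lt_or_gt_of_ne hij with hlt | hlt
        · exact hfin i j hlt hfij
        · exact hfin j i hlt hfij.symm
  intro x hx
  exact main (v x) x hx rfl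

end periodicity

end Pool.Agent.H57.EDT
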