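import Pool.Agent.H57.EDT.Defs
import Pool.Agent.H57.EDT.Per

/-! EDT0L languages with a finite-to-one evaluation in a torsion group have quasi-polynomial
growth. -/

namespace Pool.Agent.H57.EDT

section run

variable {C H : Type*} (h : H → C → List C)

theorem run_append (r r' : List H) (u : List C) : run h (r ++ r') u = run h r' (run h r u) := by
  induction r generalizing u with
  | nil => rfl
  | cons t r ih => exact ih _

theorem run_word (r : List H) (u v : List C) : run h r (u ++ v) = run h r u ++ run h r v := by
  induction r generalizing u v with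
  | nil => rfl
  | cons t r ih => simp only [run, List.flatMap_append, ih]

theorem run_nil (r : List H) : run h r [] = [] := by
  induction r with
  | nil => rfl
  | cons t r ih => simpa [run] using ih

theorem run_flat (r : List H) (u : List C) :
    run h r u = u.flatMap (fun x => run h r [x]) := by
  induction u with
  | nil => simp [run_nil]
  | cons x u ih =>
    have : x :: u = [x] ++ u := rfl
    rw [this, run_word, ih]
    simp

theorem run_eq_ext (r : List H) (u : List C) :
    run h r u = ext (fun x => run h r [x]) u := run_flat h r u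

theorem run_replicate (r : List H) (j : ℕ) (u : List C) :
    run h (List.replicate j r).flatten u = (ext (fun x => run h r [x]))^[j] u := by
  induction j generalizing u with
  | zero => rfl
  | succ j ih =>
    rw [List.replicate_succ, List.flatten_cons, run_append, ih, Function.iterate_succ,
      Function.comp, run_eq_ext h r u]

theorem mem_run_iff (r : List H) (u : List C) (y : C) :
    y ∈ run h r u ↔ ∃ x ∈ u, y ∈ run h r [x] := by
  rw [run_flat, List.mem_flatMap]

theorem run_length (r : List H) (u : List C) :
    (run h r u).length = (u.map (fun y => (run h r [y]).length)).sum := by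
  rw [run_flat, List.length_flatMap]

theorem val_run {Γ : Type*} [Monoid Γ] (F : C → Γ) (r : List H) (u : List C) :
    val (fun y => val F (run h r [y])) u = val F (run h r u) := by
  induction u with
  | nil => simp [run_nil, val]
  | cons x u ih =>
    have : x :: u = [x] ++ u := rfl
    rw [this, run_word, val_append, val_append, ih]
    simp [val]

end run

/-- sizes equal implies ratio at most two -/
theorem le_two_mul_of_size_eq {a b : ℕ} (h : Nat.size a = Nat.size b) : a ≤ 2 * b := by
  rcases Nat.eq_zero_or_pos (Nat.size b) with hb | hb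
  · have ha : Nat.size a = 0 := by omega
    rw [Nat.size_eq_zero] at ha hb
    omega
  · have h1 : a < 2 ^ Nat.size a := Nat.lt_size_self a
    have h2 : 2 ^ (Nat.size b - 1) ≤ b := Nat.lt_size.1 (by omega)
    rw [h] at h1
    have h3 : 2 ^ Nat.size b = 2 * 2 ^ (Nat.size b - 1) := by
      rw [← pow_succ']
      congr 1
      omega
    omega

section claim

variable {C H Γ σ : Type*} [Fintype C] [Group Γ] (h : H → C → List C) (M : DFA H σ) (c0 : C)
  (T : Set C)

/-- the words generated -/
def K : Set (List C) := {u | (∀ y ∈ u, y ∈ T) ∧ ∃ r ∈ M.accepts, run h r [c0] = u}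

/-- number of live letters -/
noncomputable def cnt (v : C → ℕ) (u : List C) : ℕ := (u.map (fun y => min (v y) 1)).sum

omit [Fintype C] in
theorem cnt_append (v : C → ℕ) (u u' : List C) : cnt v (u ++ u') = cnt v u + cnt v u' := by
  simp [cnt]

omit [Fintype C] in
theorem cnt_le (v : C → ℕ) (u : List C) : cnt v u ≤ (u.map v).sum := by
  unfold cnt
  induction u with
  | nil => simp
  | cons x u ih =>
    simp only [List.map_cons, List.sum_cons]
    have := min_le_left (v x) 1
    omega

omit [Fintype C] in
theorem cnt_ext (v : C → ℕ) (φ : C → List C) (u : List C) :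
    cnt v (ext φ u) = (u.map (fun x => cnt v (φ x))).sum := by
  induction u with
  | nil => simp [cnt, ext]
  | cons x u ih =>
    have : ext φ (x :: u) = φ x ++ ext φ u := by simp [ext]
    rw [this, cnt_append, ih]
    simp

/-- Main claim: between two times with the same configuration no live letter branches. -/
theorem no_branch (htors : ∀ g : Γ, ∃ n : ℕ, 0 < n ∧ g ^ n = 1) (F : C → Γ)
    (hfin : ∀ g : Γ, {u | u ∈ K h M c0 T ∧ val F u = g}.Finite)
    (r1 r2 r3 : List H) (hacc : r1 ++ r2 ++ r3 ∈ M.accepts)
    (hq : M.eval (r1 ++ r2) = M.eval r1)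
    (hB : ∀ x, x ∈ run h (r1 ++ r2) [c0] ↔ x ∈ run h r1 [c0])
    (hT : ∀ y ∈ run h (r1 ++ r2 ++ r3) [c0], y ∈ T)
    (hsize : ∀ x ∈ run h r1 [c0],
      Nat.size ((run h (r2 ++ r3) [x]).length ^ (Fintype.card C + 2)) =
        Nat.size ((run h r3 [x]).length ^ (Fintype.card C + 2))) :
    ∀ x ∈ run h r1 [c0], cnt (fun y => (run h r3 [y]).length) (run h r2 [x]) ≤
      min (run h r3 [x]).length 1 := by
  classical
  set J := Fintype.card C + 2 with hJ
  set v : C → ℕ := fun y => (run h r3 [y]).length with hvdef
  set φ : C → List C := fun x => run h r2 [x] with hφdef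
  set us := run h r1 [c0] with hus
  set B : Set C := {x | x ∈ us} with hBdef
  have hut : run h (r1 ++ r2) [c0] = ext φ us := by
    rw [run_append, run_eq_ext]
  have hns : ∀ x, (run h (r2 ++ r3) [x]).length = ((φ x).map v).sum := by
    intro x
    rw [run_append, run_length]
  have hφB : ∀ x ∈ B, ∀ y ∈ φ x, y ∈ B := by
    intro x hx y hy
    have : y ∈ run h (r1 ++ r2) [c0] := by
      rw [hut]
      simp only [ext, List.mem_flatMap]
      exact ⟨x, hx, hy⟩
    exact (hB y).1 this
  have hleN : ∀ x ∈ B, (((φ x).map v).sum) ^ J ≤ 2 * (v x) ^ J := by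
    intro x hx
    rw [← hns]
    exact le_two_mul_of_size_eq (hsize x hx)
  -- the real number θ
  have hJ0 : J ≠ 0 := by omega
  obtain ⟨θ, hθ0, hθJ⟩ : ∃ θ : ℝ, 0 ≤ θ ∧ θ ^ J = 2 :=
    ⟨(2 : ℝ) ^ ((J : ℝ)⁻¹), by positivity, Real.rpow_inv_natCast_pow (by norm_num) hJ0⟩
  have hθ1 : 1 < θ := by
    by_contra hcon
    push Not at hcon
    have : θ ^ J ≤ 1 := pow_le_one₀ hθ0 hcon
    rw [hθJ] at this
    norm_num at this
  have hθlt : θ ^ (Fintype.card C + 1) < 2 := by
    rw [← hθJ]
    exact pow_lt_pow_right₀ hθ1 (by omega)
  have hv : ∀ x ∈ B, (((φ x).map v).sum : ℝ) ≤ θ * v x := by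
    intro x hx
    have h1 : ((((φ x).map v).sum : ℕ) : ℝ) ^ J ≤ (θ * v x) ^ J := by
      rw [mul_pow, hθJ]
      exact_mod_cast hleN x hx
    exact (pow_le_pow_iff_left₀ (by positivity) (by positivity) hJ0).1 h1
  have hper := periodic_letters htors (fun y => val F (run h r3 [y])) φ v B θ hθ1.le hθlt hφB
    (by
      intro x hx hx0
      have : run h r3 [x] = [] := List.eq_nil_of_length_eq_zero hx0
      show val F (run h r3 [x]) = 1
      rw [this]; exact val_nil F) hv
  have hperw : EvPer (fun j => val (fun y => val F (run h r3 [y])) ((ext φ)^[j] us)) :=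
    evPer_word _ φ us (fun x hx => hper x hx)
  have hfr := hperw.finite_range
  -- suppose a letter branches
  intro x0 hx0
  by_contra hbr
  push Not at hbr
  -- every letter of B has enough live children
  have hge : ∀ x ∈ B, min (v x) 1 ≤ cnt v (φ x) := by
    intro x hx
    rcases Nat.eq_zero_or_pos (v x) with h0 | h0
    · simp [h0]
    · -- the weight of φ x is positive
      have hpos : 0 < ((φ x).map v).sum := by
        by_contra hcon
        have hz : (run h (r2 ++ r3) [x]).length = 0 := by rw [hns]; omega
        have hs := hsize x hx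
        rw [hz] at hs
        have : Nat.size (0 ^ J) = 0 := by rw [zero_pow hJ0]; exact Nat.size_zero
        rw [this] at hs
        have h2 := (Nat.size_eq_zero.1 hs.symm)
        have : v x = 0 := by
          have := pow_eq_zero_iff hJ0 |>.1 h2
          exact this
        omega
      have hex : ∃ y ∈ φ x, 0 < v y := by
        by_contra hcon
        push Not at hcon
        have : ((φ x).map v).sum = 0 := by
          apply List.sum_eq_zero
          intro a ha
          obtain ⟨y, hy, rfl⟩ := List.mem_map.1 ha
          have := hcon y hy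
          omega
        omega
      obtain ⟨y, hy, hvy⟩ := hex
      have h1 : min (v y) 1 ≤ cnt v (φ x) :=
        List.single_le_sum (by simp) _ (List.mem_map_of_mem hy)
      have h2 : min (v y) 1 = 1 := by omega
      have h3 : min (v x) 1 ≤ 1 := min_le_right _ _
      omega
  -- letters of the iterates
  have hlet : ∀ j x, x ∈ (ext φ)^[j] us ↔ x ∈ B := by
    intro j
    induction j with
    | zero => intro x; rfl
    | succ j ih =>
      intro x
      rw [Function.iterate_succ_apply']
      constructor
      · intro hx
        simp only [ext, List.mem_flatMap] at hx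
        obtain ⟨z, hz, hxz⟩ := hx
        exact hφB z ((ih z).1 hz) x hxz
      · intro hx
        have : x ∈ run h (r1 ++ r2) [c0] := (hB x).2 hx
        rw [hut] at this
        simp only [ext, List.mem_flatMap] at this ⊢
        obtain ⟨z, hz, hxz⟩ := this
        exact ⟨z, (ih z).2 hz, hxz⟩
  have hgrow : ∀ u : List C, (∀ x ∈ u, x ∈ B) → x0 ∈ u → cnt v u + 1 ≤ cnt v (ext φ u) := by
    intro u hu hxu
    rw [cnt_ext]
    obtain ⟨P, Q, rfl⟩ := List.append_of_mem hxu
    have hsum : ∀ w : List C, (∀ x ∈ w, x ∈ B) →
        cnt v w ≤ (w.map (fun x => cnt v (φ x))).sum := by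
      intro w hw
      unfold cnt
      apply List.sum_le_sum
      intro i hi
      exact hge i (hw i hi)
    have e1 := hsum P (fun x hx => hu x (by simp [hx]))
    have e2 := hsum Q (fun x hx => hu x (by simp [hx]))
    have e3 : cnt v (P ++ x0 :: Q) = cnt v P + (min (v x0) 1 + cnt v Q) := by
      rw [cnt_append]; rfl
    rw [e3]
    simp only [List.map_append, List.map_cons, List.sum_append, List.sum_cons]
    have e4 : min (v x0) 1 + 1 ≤ cnt v (φ x0) := hbr
    omega
  have hcntj : ∀ j, j ≤ cnt v ((ext φ)^[j] us) := by
    intro j
    induction j with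
    | zero => exact Nat.zero_le _
    | succ j ih =>
      rw [Function.iterate_succ_apply']
      have := hgrow ((ext φ)^[j] us) (fun x hx => (hlet j x).1 hx) ((hlet j x0).2 hx0)
      omega
  -- the pumped words
  set w : ℕ → List C := fun j => run h r3 ((ext φ)^[j] us) with hw
  have hwK : ∀ j, w j ∈ K h M c0 T := by
    intro j
    refine ⟨?_, r1 ++ (List.replicate j r2).flatten ++ r3, ?_, ?_⟩
    · intro y hy
      rw [hw, mem_run_iff] at hy
      obtain ⟨x, hx, hyx⟩ := hy
      apply hT
      rw [run_append, mem_run_iff]
      exact ⟨x, (hB x).2 ((hlet j x).1 hx), hyx⟩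
    · have hloop : ∀ j, M.eval (r1 ++ (List.replicate j r2).flatten) = M.eval r1 := by
        intro j
        induction j with
        | zero => simp
        | succ j ih =>
          rw [List.replicate_succ', List.flatten_append, ← List.append_assoc]
          simp only [DFA.eval, DFA.evalFrom_of_append] at ih hq ⊢
          rw [ih]
          simpa using hq
      rw [DFA.mem_accepts] at hacc ⊢
      simp only [DFA.eval, DFA.evalFrom_of_append] at hloop hq hacc ⊢
      rw [hloop]
      rw [hq] at hacc
      exact hacc
    · rw [run_append, run_append, run_replicate]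
  have hwlen : ∀ j, j ≤ (w j).length := by
    intro j
    rw [hw]
    simp only
    rw [run_length]
    exact (hcntj j).trans (cnt_le v _)
  have hwfin : (Set.range w).Finite := by
    apply Set.Finite.subset (hfr.biUnion (fun g _ => hfin g))
    rintro _ ⟨j, rfl⟩
    simp only [Set.mem_iUnion]
    refine ⟨_, ⟨j, rfl⟩, hwK j, ?_⟩
    exact (val_run h F r3 ((ext φ)^[j] us)).symm
  obtain ⟨N, hN⟩ := (hwfin.image List.length).bddAbove
  have := hN ⟨w (N + 1), ⟨N + 1, rfl⟩, rfl⟩
  have h2 := hwlen (N + 1)
  omega

/-- Consequently the content of every letter at the earlier time is the content of some letter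
at the later time. -/
theorem same_content (htors : ∀ g : Γ, ∃ n : ℕ, 0 < n ∧ g ^ n = 1) (F : C → Γ)
    (hfin : ∀ g : Γ, {u | u ∈ K h M c0 T ∧ val F u = g}.Finite)
    (r1 r2 r3 : List H) (hacc : r1 ++ r2 ++ r3 ∈ M.accepts)
    (hq : M.eval (r1 ++ r2) = M.eval r1)
    (hB : ∀ x, x ∈ run h (r1 ++ r2) [c0] ↔ x ∈ run h r1 [c0])
    (hT : ∀ y ∈ run h (r1 ++ r2 ++ r3) [c0], y ∈ T)
    (hsize : ∀ x ∈ run h r1 [c0],
      Nat.size ((run h (r2 ++ r3) [x]).length ^ (Fintype.card C + 2)) =
        Nat.size ((run h r3 [x]).length ^ (Fintype.card C + 2))) :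
    ∃ lam : C → C, ∀ x ∈ run h r1 [c0], run h (r2 ++ r3) [x] = run h r3 [lam x] := by
  classical
  have key := no_branch h M c0 T htors F hfin r1 r2 r3 hacc hq hB hT hsize
  have : ∀ x ∈ run h r1 [c0], ∃ y, run h (r2 ++ r3) [x] = run h r3 [y] := by
    intro x hx
    have hk := key x hx
    rw [run_append]
    -- general fact about words with at most one live letter
    have gen : ∀ u : List C, cnt (fun y => (run h r3 [y]).length) u ≤ 1 →
        (run h r3 u = [] ∨ ∃ y, run h r3 u = run h r3 [y]) := by
      intro u
      induction u with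
      | nil => intro _; left; exact run_nil h r3
      | cons z u ih =>
        intro hc
        have e : z :: u = [z] ++ u := rfl
        have hcz : cnt (fun y => (run h r3 [y]).length) (z :: u) =
          min (run h r3 [z]).length 1 + cnt (fun y => (run h r3 [y]).length) u := by
          simp [cnt]
        rw [hcz] at hc
        rcases Nat.eq_zero_or_pos (run h r3 [z]).length with h0 | h0
        · have hz : run h r3 [z] = [] := List.eq_nil_of_length_eq_zero h0
          rw [e, run_word, hz, List.nil_append]
          exact ih (by omega)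
        · have hu0 : cnt (fun y => (run h r3 [y]).length) u = 0 := by omega
          right
          refine ⟨z, ?_⟩
          rw [e, run_word]
          have : run h r3 u = [] := by
            apply List.eq_nil_of_length_eq_zero
            rw [run_length]
            apply List.sum_eq_zero
            intro a ha
            obtain ⟨y, hy, rfl⟩ := List.mem_map.1 ha
            have h1 : min (run h r3 [y]).length 1 ≤
              cnt (fun y => (run h r3 [y]).length) u :=
              List.single_le_sum (by simp) _ (List.mem_map_of_mem hy)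
            omega
          rw [this, List.append_nil]
    rcases gen (run h r2 [x]) (hk.trans (min_le_right _ _)) with h1 | h1
    · -- then x is dead at the later time as well
      refine ⟨x, ?_⟩
      rw [h1]
      symm
      apply List.eq_nil_of_length_eq_zero
      have hs := hsize x hx
      rw [run_append, h1] at hs
      simp only [List.length_nil] at hs
      have hJ0 : Fintype.card C + 2 ≠ 0 := by omega
      rw [zero_pow hJ0, Nat.size_zero] at hs
      exact (pow_eq_zero_iff hJ0).1 (Nat.size_eq_zero.1 hs.symm)
    · exact h1
  choose! lam hlam using this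
  exact ⟨lam, hlam⟩

end claim

end Pool.Agent.H57.EDT
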