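import Mathlib

/-! Definitions: EDT0L languages, the first Grigorchuk group, word length. -/

namespace Pool.Agent.H57.EDT

/-- Apply a finite sequence of tables (endomorphisms of the free monoid, given by the images of
the letters), from left to right, to a word. -/
def run {C H : Type*} (h : H → C → List C) : List H → List C → List C
  | [], u => u
  | t :: r, u => run h r (u.flatMap (h t))

/-- A language over `A` is EDT0L if there are a finite alphabet `C` containing `A` (through an
injection `ι`), finitely many endomorphisms of the free monoid over `C` (the tables `h t`,
`t : H`), a letter `c` of `C` and a regular language `R` of sequences of tables, such that the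
language consists of the words over `A` obtained from `c` by applying a sequence from `R`. -/
def IsEDT0L {A : Type} (L : Set (List A)) : Prop :=
  ∃ (C H : Type) (_ : Fintype C) (_ : Fintype H) (ι : A → C) (h : H → C → List C) (c : C)
    (R : Language H), Function.Injective ι ∧ R.IsRegular ∧
      L = {w | ∃ r ∈ R, run h r [c] = w.map ι}

/-- The four generators. -/
inductive Gen
  | a | b | c | d
  deriving DecidableEq, Fintype

/-- The action of the generators on the vertices of the rooted binary tree (finite words over
`{0, 1}`, with `0 = false` and `1 = true`). -/
def act : Gen → List Bool → List Bool
  | _, [] => []
  | .a, x :: w => (!x) :: w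
  | .b, false :: w => false :: act .a w
  | .b, true :: w => true :: act .c w
  | .c, false :: w => false :: act .a w
  | .c, true :: w => true :: act .d w
  | .d, false :: w => false :: w
  | .d, true :: w => true :: act .b w

theorem act_act (s : Gen) (w : List Bool) : act s (act s w) = w := by
  induction w generalizing s with
  | nil => cases s <;> rfl
  | cons x w ih => cases s <;> cases x <;> simp [act, ih]

/-- The generators as permutations of the set of vertices of the tree. -/
def genPerm (s : Gen) : Equiv.Perm (List Bool) := Function.Involutive.toPerm (act s) (act_act s)

/-- The first Grigorchuk group. -/
def Grig : Subgroup (Equiv.Perm (List Bool)) := Subgroup.closure (Set.range genPerm)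

/-- The generators as elements of the group. -/
def gen (s : Gen) : Grig := ⟨genPerm s, Subgroup.subset_closure ⟨s, rfl⟩⟩

/-- The word length of an element of the Grigorchuk group with respect to `{a, b, c, d}`. -/
noncomputable def wordLength (g : Grig) : ℕ :=
  sInf {n : ℕ | ∃ w : List Gen, (w.map gen).prod = g ∧ w.length = n}

/-- A geodesic normal form of the Grigorchuk group over `{a, b, c, d}`: a set of words containing
exactly one word for each element of the group, of length the word length of the element. -/
def IsGeodesicNormalForm (L : Set (List Gen)) : Prop :=
  (∀ g : Grig, ∃! w, w ∈ L ∧ (w.map gen).prod = g) ∧
    ∀ w ∈ L, w.length = wordLength (w.map gen).prod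

end Pool.Agent.H57.EDT
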