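import Pool.Agent.H57.EDT.Tors
import Pool.Agent.H57.EDT.Count

/-! A lower bound for the growth of the Grigorchuk group and the main theorem. -/

namespace Pool.Agent.H57.EDT

/-- value of a word as a permutation -/
def pv (w : List Gen) : Equiv.Perm (List Bool) := (w.map genPerm).prod

theorem pv_append (w w' : List Gen) : pv (w ++ w') = pv w * pv w' := by simp [pv]

theorem pv_cons (s : Gen) (w : List Gen) : pv (s :: w) = genPerm s * pv w := by simp [pv]

theorem pv_nil : pv [] = 1 := rfl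

/-- the substitution lifting to the second subtree -/
def sig : Gen → List Gen
  | .a => [.a, .c, .a]
  | .b => [.d]
  | .c => [.b]
  | .d => [.c]

/-- what it does on the first subtree -/
def del : Gen → List Gen
  | .a => [.d]
  | .b => []
  | .c => [.a]
  | .d => [.a]

theorem pv_sig_true (w : List Gen) (v : List Bool) :
    pv (ext sig w) (true :: v) = true :: pv w v := by
  induction w generalizing v with
  | nil => rfl
  | cons s w ih =>
    have e : ext sig (s :: w) = sig s ++ ext sig w := by simp [ext]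
    rw [e, pv_append, Equiv.Perm.mul_apply, ih, pv_cons, Equiv.Perm.mul_apply]
    cases s <;> rfl

theorem pv_sig_false (w : List Gen) (v : List Bool) :
    pv (ext sig w) (false :: v) = false :: pv (ext del w) v := by
  induction w generalizing v with
  | nil => rfl
  | cons s w ih =>
    have e : ext sig (s :: w) = sig s ++ ext sig w := by simp [ext]
    have e' : ext del (s :: w) = del s ++ ext del w := by simp [ext]
    rw [e, e', pv_append, pv_append, Equiv.Perm.mul_apply, ih, Equiv.Perm.mul_apply]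
    cases s <;> rfl

/-- the images of the generators under the successive maps to the dihedral group -/
def tt (i : ℕ) (s : Gen) : Equiv.Perm (List Bool) := pv (ext del ((ext sig)^[i] [s]))

/-- value of a word under the `i`-th map -/
def tw (i : ℕ) (w : List Gen) : Equiv.Perm (List Bool) := pv (ext del ((ext sig)^[i] w))

theorem tw_append (i : ℕ) (w w' : List Gen) : tw i (w ++ w') = tw i w * tw i w' := by
  unfold tw
  rw [ext_iter_append, ext_append, pv_append]

theorem tw_nil (i : ℕ) : tw i [] = 1 := by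
  unfold tw
  rw [ext_iter_nil]
  rfl

theorem tw_cons (i : ℕ) (s : Gen) (w : List Gen) : tw i (s :: w) = tt i s * tw i w := by
  have : s :: w = [s] ++ w := rfl
  rw [this, tw_append]
  rfl

theorem tw_sig (i : ℕ) (w : List Gen) : tw i (ext sig w) = tw (i + 1) w := by
  unfold tw
  rw [Function.iterate_succ, Function.comp]

theorem tt_succ (i : ℕ) (s : Gen) : tt (i + 1) s = tw i (sig s) := by
  unfold tt tw
  rw [Function.iterate_succ, Function.comp]
  congr 3
  simp [ext]

theorem tt_zero (s : Gen) : tt 0 s = pv (del s) := by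
  unfold tt
  congr 1
  simp [ext]

/-- values of the maps from the second one on -/
theorem tt_mem (i : ℕ) (s : Gen) : tt (i + 2) s = 1 ∨ tt (i + 2) s = ap := by
  have hc : ∀ x y : Equiv.Perm (List Bool), (x = 1 ∨ x = ap) → (y = 1 ∨ y = ap) →
      (x * y = 1 ∨ x * y = ap) := by
    rintro x y (rfl | rfl) (rfl | rfl) <;> simp [ap_sq]
  induction i generalizing s with
  | zero =>
    have z : ∀ s, tt 0 s = pv (del s) := tt_zero
    have h1 : ∀ s, tt 1 s = tw 0 (sig s) := fun s => tt_succ 0 s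
    have h2 : tt (0 + 2) s = tw 1 (sig s) := tt_succ 1 s
    have oa : tt 1 .a = genPerm .d * ap * genPerm .d := by
      rw [h1]
      simp only [sig, tw_cons, tw_nil, z, del, pv_cons, pv_nil, mul_one]
      rfl
    have ob : tt 1 .b = ap := by
      rw [h1]
      simp only [sig, tw_cons, tw_nil, z, del, pv_cons, pv_nil, mul_one]
      rfl
    have oc : tt 1 .c = 1 := by
      rw [h1]
      simp only [sig, tw_cons, tw_nil, z, del, pv_nil, mul_one]
    have od : tt 1 .d = ap := by
      rw [h1]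
      simp only [sig, tw_cons, tw_nil, z, del, pv_cons, pv_nil, mul_one]
      rfl
    rw [h2]
    cases s
    · left
      simp only [sig, tw_cons, tw_nil, oa, oc, mul_one]
      have hd : genPerm .d * genPerm .d = 1 := genPerm_sq _
      calc genPerm .d * ap * genPerm .d * (genPerm .d * ap * genPerm .d)
          = genPerm .d * ap * (genPerm .d * genPerm .d) * ap * genPerm .d := by group
        _ = genPerm .d * (ap * ap) * genPerm .d := by rw [hd]; group
        _ = 1 := by rw [ap_sq, mul_one, hd]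
    · right; simp only [sig, tw_cons, tw_nil, od, mul_one]
    · right; simp only [sig, tw_cons, tw_nil, ob, mul_one]
    · left; simp only [sig, tw_cons, tw_nil, oc, mul_one]
  | succ i ih =>
    have h1 : tt (i + 1 + 2) s = tw (i + 2) (sig s) := tt_succ (i + 2) s
    rw [h1]
    cases s
    · simp only [sig, tw_cons, tw_nil, mul_one]
      exact hc _ _ (ih _) (hc _ _ (ih _) (ih _))
    · simp only [sig, tw_cons, tw_nil, mul_one]; exact ih _
    · simp only [sig, tw_cons, tw_nil, mul_one]; exact ih _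
    · simp only [sig, tw_cons, tw_nil, mul_one]; exact ih _

theorem tt_one_a : tt 1 .a = genPerm .d * ap * genPerm .d := by
  rw [tt_succ]
  simp only [sig, tw_cons, tw_nil, tt_zero, del, pv_cons, pv_nil, mul_one]
  rfl

theorem tt_one_b : tt 1 .b = ap := by
  rw [tt_succ]
  simp only [sig, tw_cons, tw_nil, tt_zero, del, pv_cons, pv_nil, mul_one]
  rfl

theorem tt_zero_a : tt 0 .a = genPerm .d := by
  rw [tt_zero]; simp only [del, pv_cons, pv_nil, mul_one]

theorem tt_zero_b : tt 0 .b = 1 := by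
  rw [tt_zero]; rfl

theorem tt_a_sq (i : ℕ) : tt i .a * tt i .a = 1 := by
  match i with
  | 0 => rw [tt_zero_a]; exact genPerm_sq _
  | 1 =>
    rw [tt_one_a]
    have hd : genPerm .d * genPerm .d = 1 := genPerm_sq _
    calc genPerm .d * ap * genPerm .d * (genPerm .d * ap * genPerm .d)
        = genPerm .d * ap * (genPerm .d * genPerm .d) * ap * genPerm .d := by group
      _ = genPerm .d * (ap * ap) * genPerm .d := by rw [hd]; group
      _ = 1 := by rw [ap_sq, mul_one, hd]
  | i + 2 =>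
    rcases tt_mem i .a with h | h
    · rw [h, mul_one]
    · rw [h, ap_sq]

theorem dada (x : Bool) (v : List Bool) :
    (genPerm .d * ap * genPerm .d * ap) (x :: v) = x :: genPerm .b v := by
  cases x <;> rfl

theorem dada_sq : (genPerm .d * ap * genPerm .d * ap) * (genPerm .d * ap * genPerm .d * ap) =
    1 := by
  ext1 v
  match v with
  | [] => rfl
  | x :: v =>
    rw [Equiv.Perm.mul_apply, dada, dada]
    have : genPerm .b (genPerm .b v) = v := act_act .b v
    rw [this]
    rfl

theorem tt_ab (i : ℕ) : (tt i .a * tt i .b) ^ 4 = 1 := by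
  match i with
  | 0 =>
    rw [tt_zero_a, tt_zero_b, mul_one]
    have : genPerm .d ^ 4 = (genPerm .d * genPerm .d) ^ 2 := by rw [← pow_two, ← pow_mul]
    rw [this, genPerm_sq, one_pow]
  | 1 =>
    rw [tt_one_a, tt_one_b]
    have : (genPerm .d * ap * genPerm .d * ap) ^ 4 =
      ((genPerm .d * ap * genPerm .d * ap) * (genPerm .d * ap * genPerm .d * ap)) ^ 2 := by
      rw [← pow_two, ← pow_mul]
    rw [this, dada_sq, one_pow]
  | i + 2 =>
    have h4 : ap ^ 4 = 1 := by
      have : ap ^ 4 = (ap * ap) ^ 2 := by rw [← pow_two, ← pow_mul]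
      rw [this, ap_sq, one_pow]
    rcases tt_mem i .a with h | h <;> rcases tt_mem i .b with h' | h' <;>
      rw [h, h'] <;> simp [ap_sq, h4]

/-- words that can be combined -/
def Good (w : List Gen) : Prop := ∀ i, tw i w = 1

theorem good_nil : Good [] := fun i => tw_nil i

/-- the base word -/
def wstar : List Gen := [.a, .b, .a, .b, .a, .b, .a, .b]

theorem good_wstar : Good wstar := by
  intro i
  have h := tt_ab i
  simp only [wstar, tw_cons, tw_nil, mul_one]
  rw [← h]
  simp only [pow_succ, pow_zero, one_mul, mul_assoc]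

theorem pv_wstar : pv wstar ≠ 1 := by
  intro h
  have := congrArg (fun g : Equiv.Perm (List Bool) => g [false, false, false]) h
  revert this
  simp only [Equiv.Perm.one_apply]
  decide

/-- combination of two words -/
def comb (w0 w1 : List Gen) : List Gen := .a :: (ext sig w0 ++ .a :: ext sig w1)

theorem good_comb {w0 w1 : List Gen} (h0 : Good w0) (h1 : Good w1) : Good (comb w0 w1) := by
  intro i
  unfold comb
  rw [tw_cons, tw_append, tw_cons, tw_sig, tw_sig, h0, h1, one_mul, mul_one, tt_a_sq]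

theorem pv_comb_false {w0 w1 : List Gen} (_h0 : Good w0) (h1 : Good w1) (v : List Bool) :
    pv (comb w0 w1) (false :: v) = false :: pv w0 v := by
  unfold comb
  have e1 : pv (ext del w1) = 1 := h1 0
  rw [pv_cons, pv_append, pv_cons, Equiv.Perm.mul_apply, Equiv.Perm.mul_apply,
    Equiv.Perm.mul_apply, pv_sig_false, e1]
  show ap (pv (ext sig w0) (ap (false :: v))) = _
  rw [ap_cons, Bool.not_false, pv_sig_true, ap_cons, Bool.not_true]

theorem pv_comb_true {w0 w1 : List Gen} (h0 : Good w0) (_h1 : Good w1) (v : List Bool) :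
    pv (comb w0 w1) (true :: v) = true :: pv w1 v := by
  unfold comb
  have e1 : pv (ext del w0) = 1 := h0 0
  rw [pv_cons, pv_append, pv_cons, Equiv.Perm.mul_apply, Equiv.Perm.mul_apply,
    Equiv.Perm.mul_apply, pv_sig_true]
  show ap (pv (ext sig w0) (ap (true :: pv w1 v))) = _
  rw [ap_cons, Bool.not_true, pv_sig_false, e1, ap_cons, Bool.not_false]
  rfl

theorem sig_length (w : List Gen) : (ext sig w).length ≤ 3 * w.length := by
  induction w with
  | nil => simp [ext]
  | cons s w ih =>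
    have e : ext sig (s :: w) = sig s ++ ext sig w := by simp [ext]
    rw [e, List.length_append, List.length_cons]
    have : (sig s).length ≤ 3 := by cases s <;> simp [sig]
    omega

/-- large families of words with distinct values -/
theorem family (i : ℕ) : ∃ S : Finset (List Gen), (∀ w ∈ S, Good w ∧ w.length ≤ 8 ^ (i + 1)) ∧
    Set.InjOn pv (S : Set (List Gen)) ∧ S.card = 2 ^ 2 ^ i := by
  induction i with
  | zero =>
    refine ⟨{[], wstar}, ?_, ?_, ?_⟩
    · intro w hw
      simp only [Finset.mem_insert, Finset.mem_singleton] at hw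
      rcases hw with rfl | rfl
      · exact ⟨good_nil, by simp⟩
      · exact ⟨good_wstar, by simp [wstar]⟩
    · intro w hw w' hw' he
      simp only [Finset.coe_insert, Finset.coe_singleton, Set.mem_insert_iff,
        Set.mem_singleton_iff] at hw hw'
      rcases hw with rfl | rfl <;> rcases hw' with rfl | rfl
      · rfl
      · exact absurd he.symm pv_wstar
      · exact absurd he pv_wstar
      · rfl
    · simp [wstar]
  | succ i ih =>
    obtain ⟨S, hS1, hS2, hS3⟩ := ih
    have hinj : ∀ p ∈ S ×ˢ S, ∀ q ∈ S ×ˢ S, pv (comb p.1 p.2) = pv (comb q.1 q.2) → p = q := by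
      rintro ⟨w0, w1⟩ hp ⟨u0, u1⟩ hq he
      rw [Finset.mem_product] at hp hq
      simp only at hp hq he
      have g0 := (hS1 w0 hp.1).1
      have g1 := (hS1 w1 hp.2).1
      have k0 := (hS1 u0 hq.1).1
      have k1 := (hS1 u1 hq.2).1
      have a0 : pv w0 = pv u0 := by
        ext1 v
        have := congrArg (fun g : Equiv.Perm (List Bool) => g (false :: v)) he
        simp only [pv_comb_false g0 g1, pv_comb_false k0 k1] at this
        exact (List.cons.inj this).2
      have a1 : pv w1 = pv u1 := by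
        ext1 v
        have := congrArg (fun g : Equiv.Perm (List Bool) => g (true :: v)) he
        simp only [pv_comb_true g0 g1, pv_comb_true k0 k1] at this
        exact (List.cons.inj this).2
      rw [hS2 hp.1 hq.1 a0, hS2 hp.2 hq.2 a1]
    refine ⟨(S ×ˢ S).image (fun p => comb p.1 p.2), ?_, ?_, ?_⟩
    · intro w hw
      obtain ⟨⟨w0, w1⟩, hp, rfl⟩ := Finset.mem_image.1 hw
      rw [Finset.mem_product] at hp
      simp only at hp ⊢
      obtain ⟨g0, l0⟩ := hS1 w0 hp.1
      obtain ⟨g1, l1⟩ := hS1 w1 hp.2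
      refine ⟨good_comb g0 g1, ?_⟩
      unfold comb
      simp only [List.length_cons, List.length_append]
      have s0 := sig_length w0
      have s1 := sig_length w1
      have e : 8 ^ (i + 1 + 1) = 8 * 8 ^ (i + 1) := by ring
      have e1 : 1 ≤ 8 ^ (i + 1) := Nat.one_le_pow _ _ (by norm_num)
      rw [e]
      omega
    · intro w hw w' hw' he
      simp only [Finset.coe_image, Set.mem_image, Finset.mem_coe] at hw hw'
      obtain ⟨p, hp, rfl⟩ := hw
      obtain ⟨q, hq, rfl⟩ := hw'
      rw [hinj p hp q hq he]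
    · rw [Finset.card_image_of_injOn, Finset.card_product, hS3]
      · rw [pow_succ 2 i, mul_two, pow_add]
      · intro p hp q hq he
        simp only at he
        exact hinj p hp q hq (by rw [he])

theorem coe_prod_gen (w : List Gen) : (((w.map gen).prod : Grig) : Equiv.Perm (List Bool)) =
    pv w := by
  induction w with
  | nil => rfl
  | cons s w ih => rw [pv_cons, List.map_cons, List.prod_cons, Subgroup.coe_mul, ih]; rfl

/-- Main theorem for the Grigorchuk group. -/
theorem no_short {A : Type} (ev : A → Grig) (L : Set (List A)) (hL : IsEDT0L L)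
    (hfin : ∀ g : Grig, {w | w ∈ L ∧ (w.map ev).prod = g}.Finite) :
    ∃ ε : ℝ, 0 < ε ∧ ∃ r0 : ℕ, ∀ r : ℕ, r0 ≤ r → ∃ g : Grig, wordLength g ≤ r ∧
      ∀ w ∈ L, (w.map ev).prod = g → Real.exp ((r : ℝ) ^ ε) ≤ (w.length : ℝ) := by
  classical
  obtain ⟨k, D, hD⟩ := growth_EDT0L Grig_torsion ev L hL hfin
  refine ⟨1 / (6 * (k + 1)), by positivity, (4 * D * 3 ^ k + 1) ^ 6 + 8, fun r hr => ?_⟩
  set ε : ℝ := 1 / (6 * (k + 1)) with hε
  by_contra hcon
  push Not at hcon
  -- choose i
  obtain ⟨i, hi1, hi2⟩ : ∃ i : ℕ, 8 ^ (i + 1) ≤ r ∧ r < 8 ^ (i + 2) := by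
    refine ⟨Nat.log 8 r - 1, ?_, ?_⟩
    · have h1 : 1 ≤ Nat.log 8 r := Nat.log_pos (by norm_num) (by omega)
      have e : Nat.log 8 r - 1 + 1 = Nat.log 8 r := by omega
      rw [e]
      exact Nat.pow_log_le_self 8 (by omega)
    · have h1 : 1 ≤ Nat.log 8 r := Nat.log_pos (by norm_num) (by omega)
      have e : Nat.log 8 r - 1 + 2 = Nat.log 8 r + 1 := by omega
      rw [e]
      exact Nat.lt_pow_succ_log_self (by norm_num) r
  obtain ⟨S, hS1, hS2, hS3⟩ := family i
  set X : ℝ := Real.exp ((r : ℝ) ^ ε) with hX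
  set n : ℕ := ⌊X⌋₊ with hn
  have hXpos : 0 < X := Real.exp_pos _
  -- representatives
  have hrep : ∀ u ∈ S, ∃ w ∈ L, (w.map ev).prod = (u.map gen).prod ∧ w.length ≤ n := by
    intro u hu
    obtain ⟨w, hw, hwg, hwl⟩ := hcon (u.map gen).prod (by
      refine le_trans (Nat.sInf_le ⟨u, rfl, rfl⟩) ?_
      exact le_trans (hS1 u hu).2 hi1)
    exact ⟨w, hw, hwg, Nat.le_floor hwl.le⟩
  choose! f hf1 hf2 hf3 using hrep
  have hcard : 2 ^ 2 ^ i ≤ 2 ^ (D * (Nat.log 2 n + 1) ^ k) := by
    refine le_trans ?_ (hD n).2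
    rw [← hS3, ← Set.ncard_coe_finset]
    refine Set.ncard_le_ncard_of_injOn f ?_ ?_ (hD n).1
    · intro u hu
      exact ⟨hf1 u hu, hf3 u hu⟩
    · intro u hu u' hu' he
      apply hS2 hu hu'
      rw [← coe_prod_gen, ← coe_prod_gen, ← hf2 u hu, ← hf2 u' hu', he]
  have hpow : 2 ^ i ≤ D * (Nat.log 2 n + 1) ^ k := (Nat.pow_le_pow_iff_right (by norm_num)).1 hcard
  -- real estimates
  have hr1 : (1 : ℝ) ≤ r := by
    have : 1 ≤ r := by omega
    exact_mod_cast this
  have hr0 : (0 : ℝ) < r := by linarith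
  have hε0 : 0 < ε := by positivity
  have hre : 1 ≤ (r : ℝ) ^ ε := Real.one_le_rpow hr1 hε0.le
  have hlog : ((Nat.log 2 n : ℕ) : ℝ) ≤ 2 * (r : ℝ) ^ ε := by
    have hn1 : 1 ≤ n := by
      rw [hn, Nat.one_le_floor_iff]
      exact Real.one_le_exp (by positivity)
    have h1 : (2 : ℝ) ^ (Nat.log 2 n) ≤ X := by
      have h2 : 2 ^ (Nat.log 2 n) ≤ n := Nat.pow_log_le_self 2 (by omega)
      have h3 : ((2 ^ (Nat.log 2 n) : ℕ) : ℝ) ≤ n := by exact_mod_cast h2
      have h4 : (n : ℝ) ≤ X := Nat.floor_le hXpos.le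
      push_cast at h3
      linarith
    have h2 := Real.log_le_log (by positivity) h1
    rw [Real.log_pow, hX, Real.log_exp] at h2
    have h3 : (1 : ℝ) / 2 ≤ Real.log 2 := by
      have := Real.log_two_gt_d9
      linarith
    nlinarith [Nat.cast_nonneg (α := ℝ) (Nat.log 2 n)]
  have hbig : ((2 : ℝ) ^ i) ≤ D * (3 * (r : ℝ) ^ ε) ^ k := by
    have h1 : ((2 ^ i : ℕ) : ℝ) ≤ ((D * (Nat.log 2 n + 1) ^ k : ℕ) : ℝ) := by exact_mod_cast hpow
    push_cast at h1
    refine h1.trans ?_
    apply mul_le_mul_of_nonneg_left _ (Nat.cast_nonneg D)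
    apply pow_le_pow_left₀ (by positivity)
    linarith
  have hrk : ((r : ℝ) ^ ε) ^ k ≤ (r : ℝ) ^ ((1 : ℝ) / 6) := by
    rw [← Real.rpow_natCast, ← Real.rpow_mul hr0.le]
    apply Real.rpow_le_rpow_of_exponent_le hr1
    rw [hε, div_mul_eq_mul_div, one_mul, div_le_div_iff₀ (by positivity) (by norm_num)]
    linarith
  have hlow : (r : ℝ) ^ ((1 : ℝ) / 3) ≤ 4 * (2 : ℝ) ^ i := by
    have h1 : (r : ℝ) ≤ 8 ^ (i + 2) := by exact_mod_cast hi2.le
    have h2 : (r : ℝ) ^ ((1 : ℝ) / 3) ≤ ((8 : ℝ) ^ (i + 2)) ^ ((1 : ℝ) / 3) :=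
      Real.rpow_le_rpow hr0.le h1 (by norm_num)
    have h3 : ((8 : ℝ) ^ (i + 2)) ^ ((1 : ℝ) / 3) = 2 ^ (i + 2) := by
      have e8 : (8 : ℝ) = 2 ^ (3 : ℕ) := by norm_num
      rw [e8, ← pow_mul, mul_comm 3 (i + 2), pow_mul]
      have := Real.pow_rpow_inv_natCast (x := (2 : ℝ) ^ (i + 2)) (n := 3) (by positivity)
        (by norm_num)
      have e3 : (1 : ℝ) / 3 = (((3 : ℕ) : ℝ))⁻¹ := by norm_num
      rw [e3]
      exact this
    rw [h3] at h2
    calc (r : ℝ) ^ ((1 : ℝ) / 3) ≤ 2 ^ (i + 2) := h2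
      _ = 4 * 2 ^ i := by rw [pow_add]; ring
  have hfinal : (r : ℝ) ^ ((1 : ℝ) / 6) ≤ 4 * D * 3 ^ k := by
    have h1 : (r : ℝ) ^ ((1 : ℝ) / 3) = (r : ℝ) ^ ((1 : ℝ) / 6) * (r : ℝ) ^ ((1 : ℝ) / 6) := by
      rw [← Real.rpow_add hr0]; norm_num
    have h2 : (r : ℝ) ^ ((1 : ℝ) / 3) ≤ 4 * (D * 3 ^ k * (r : ℝ) ^ ((1 : ℝ) / 6)) := by
      refine hlow.trans ?_
      have : (2 : ℝ) ^ i ≤ D * 3 ^ k * (r : ℝ) ^ ((1 : ℝ) / 6) := by
        refine hbig.trans ?_
        rw [mul_pow, ← mul_assoc]
        apply mul_le_mul_of_nonneg_left hrk (by positivity)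
      linarith
    have h3 : 0 < (r : ℝ) ^ ((1 : ℝ) / 6) := by positivity
    rw [h1] at h2
    have h4 : (r : ℝ) ^ ((1 : ℝ) / 6) * (r : ℝ) ^ ((1 : ℝ) / 6) ≤
        (4 * D * 3 ^ k) * (r : ℝ) ^ ((1 : ℝ) / 6) := by linarith
    exact le_of_mul_le_mul_right h4 h3
  have h6 : (r : ℝ) ≤ (4 * D * 3 ^ k) ^ 6 := by
    have := pow_le_pow_left₀ (by positivity) hfinal 6
    rw [← Real.rpow_natCast ((r : ℝ) ^ ((1 : ℝ) / 6)) 6, ← Real.rpow_mul hr0.le] at this
    norm_num at this
    exact this
  have h7 : (((4 * D * 3 ^ k + 1) ^ 6 + 8 : ℕ) : ℝ) ≤ r := by exact_mod_cast hr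
  push_cast at h7
  have h8 : ((4 : ℝ) * D * 3 ^ k) ^ 6 ≤ (4 * D * 3 ^ k + 1) ^ 6 :=
    pow_le_pow_left₀ (by positivity) (by linarith) 6
  linarith

end Pool.Agent.H57.EDT
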