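import Pool.Agent.H57.EDT.IdxDefs
import Pool.Agent.H57.EDT.IdxGroup

/-! An indexed normal form of the Grigorchuk group. -/

namespace Pool.Agent.H57.EDT

/-! ### the normal words -/

/-- normal word of an element of `Gam` -/
noncomputable def Nw (g : Grig) : List Gen :=
  open Classical in
  if h : CC < wordLength g then
    gw (rp g) ++ comb (Nw (co g).1) (Nw (co g).2)
  else gw g
termination_by wordLength g
decreasing_by
  · have := co_fst_le g
    omega
  · have := co_snd_le g
    omega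

theorem Nw_small {g : Grig} (h : wordLength g ≤ CC) : Nw g = gw g := by
  rw [Nw]
  exact dif_neg (by omega)

theorem Nw_big {g : Grig} (h : CC < wordLength g) :
    Nw g = gw (rp g) ++ comb (Nw (co g).1) (Nw (co g).2) := by
  rw [Nw]
  exact dif_pos h

theorem Nw_spec : ∀ (n : ℕ) (g : Grig), wordLength g = n → g ∈ Gam →
    Good (Nw g) ∧ vg (Nw g) = g := by
  intro n
  induction n using Nat.strong_induction_on with
  | _ n IH =>
    intro g hn hg
    by_cases h : CC < wordLength g
    · rw [Nw_big h]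
      have l0 := co_fst_le g
      have l1 := co_snd_le g
      obtain ⟨a0, b0⟩ := IH _ (by omega) (co g).1 rfl (co_fst_mem g)
      obtain ⟨a1, b1⟩ := IH _ (by omega) (co g).2 rfl (co_snd_mem g)
      refine ⟨(gw_good _).append (good_comb a0 a1), ?_⟩
      rw [vg_append, vg_gw (rp_Gam hg)]
      exact recomp g a0 a1 b0 b1
    · rw [Nw_small (by omega)]
      exact ⟨gw_good g, vg_gw hg⟩

theorem Nw_good {g : Grig} (hg : g ∈ Gam) : Good (Nw g) := (Nw_spec _ g rfl hg).1

theorem vg_Nw {g : Grig} (hg : g ∈ Gam) : vg (Nw g) = g := (Nw_spec _ g rfl hg).2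

/-- representative modulo `Gam` -/
noncomputable def rt (g : Grig) : Grig := (QuotientGroup.mk g : Grig ⧸ Gam).out

theorem rt_mem (g : Grig) : (rt g)⁻¹ * g ∈ Gam := by
  rw [← QuotientGroup.eq]
  exact QuotientGroup.out_eq' _

theorem rt_eq (g : Grig) {d : Grig} (hd : d ∈ Gam) : rt (rt g * d) = rt g := by
  unfold rt
  congr 1
  have h1 : (QuotientGroup.mk ((QuotientGroup.mk g : Grig ⧸ Gam).out * d) : Grig ⧸ Gam) =
      QuotientGroup.mk ((QuotientGroup.mk g : Grig ⧸ Gam).out) :=
    QuotientGroup.mk_mul_of_mem _ hd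
  rw [h1]
  exact QuotientGroup.out_eq' _

theorem rt_range_finite : (Set.range rt).Finite := by
  apply Set.Finite.subset (Set.finite_range (fun q : Grig ⧸ Gam => q.out))
  rintro _ ⟨g, rfl⟩
  exact ⟨_, rfl⟩

/-- the normal form -/
noncomputable def Wn (g : Grig) : List Gen := wd (rt g) ++ Nw ((rt g)⁻¹ * g)

theorem vg_Wn (g : Grig) : vg (Wn g) = g := by
  unfold Wn
  rw [vg_append, vg_wd, vg_Nw (rt_mem g)]
  group

/-! ### the grammar -/

/-- the small elements -/
def Sm : Type := {g : Grig // g ∈ Gam ∧ wordLength g ≤ CC}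

instance : Finite Sm := by
  have : {g : Grig | g ∈ Gam ∧ wordLength g ≤ CC}.Finite :=
    (finite_ball CC).subset (fun g hg => hg.2)
  exact this

/-- nonterminals -/
inductive Nt
  | start | top | all | big
  | el (e : Sm)
  | pBig
  | pEl (e : Sm)
  | lt (s : Gen)

instance : Finite Nt := by
  let f : Nt → (Fin 5) ⊕ (Sm ⊕ (Sm ⊕ Gen)) := fun x => match x with
    | .start => Sum.inl 0
    | .top => Sum.inl 1
    | .all => Sum.inl 2
    | .big => Sum.inl 3
    | .pBig => Sum.inl 4
    | .el e => Sum.inr (Sum.inl e)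
    | .pEl e => Sum.inr (Sum.inr (Sum.inl e))
    | .lt s => Sum.inr (Sum.inr (Sum.inr s))
  apply Finite.of_injective f
  intro x y h
  cases x <;> cases y <;> simp_all [f]

/-- flags -/
inductive Fl
  | tau | bot

instance : Finite Fl := by
  let f : Fl → Bool := fun x => match x with
    | .tau => true
    | .bot => false
  apply Finite.of_injective f
  intro x y h
  cases x <;> cases y <;> simp_all [f]

/-- nonterminal of a child -/
noncomputable def cd (g : Grig) : Nt :=
  open Classical in if h : g ∈ Gam ∧ wordLength g ≤ CC then .pEl ⟨g, h⟩ else .pBig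

/-- letters as nonterminals -/
def lts (w : List Gen) : List (Gen ⊕ Nt) := w.map (fun s => Sum.inr (Nt.lt s))

/-- right hand side for a big element -/
noncomputable def rhsBig (u : Grig) (x y : Nt) : List (Gen ⊕ Nt) :=
  lts (gw u) ++ ([Sum.inr (.lt .a)] ++ ([Sum.inr x] ++ ([Sum.inr (.lt .a)] ++ [Sum.inr y])))

/-- the productions `A → α` -/
def plainRules : Set (Nt × List (Gen ⊕ Nt)) :=
  {q | (∃ g, q = (Nt.top, lts (wd (rt g)) ++ [Sum.inr Nt.all])) ∨ q = (Nt.all, [Sum.inr Nt.big]) ∨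
    (∃ e, q = (Nt.all, [Sum.inr (Nt.el e)])) ∨ (∃ e : Sm, q = (Nt.el e, lts (gw e.1))) ∨
    ∃ g, g ∈ Gam ∧ CC < wordLength g ∧ q = (Nt.big, rhsBig (rp g) (cd (co g).1) (cd (co g).2))}

/-- the productions `A → B f` -/
def pushRules : Set (Nt × Nt × Fl) :=
  {q | q = (Nt.start, Nt.top, Fl.bot) ∨ q = (Nt.pBig, Nt.big, Fl.tau) ∨
    ∃ e, q = (Nt.pEl e, Nt.el e, Fl.tau)}

/-- the productions `A f → α` -/
def popRules : Set (Nt × Fl × List (Gen ⊕ Nt)) :=
  {q | (∃ s, q = (Nt.lt s, Fl.bot, [Sum.inl s])) ∨ ∃ s, q = (Nt.lt s, Fl.tau, lts (sig s))}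

theorem plainRules_finite : plainRules.Finite := by
  have h1 : (Set.range (fun g : Grig => (Nt.top, lts (wd (rt g)) ++ [Sum.inr Nt.all]))).Finite := by
    have : (Set.range (fun g : Grig => (Nt.top, lts (wd (rt g)) ++ [Sum.inr Nt.all]))) ⊆
        (fun t : Grig => (Nt.top, lts (wd t) ++ [Sum.inr Nt.all])) '' Set.range rt := by
      rintro _ ⟨g, rfl⟩
      exact ⟨rt g, ⟨g, rfl⟩, rfl⟩
    exact (rt_range_finite.image _).subset this
  have h2 : ({(Nt.all, [Sum.inr Nt.big])} : Set (Nt × List (Gen ⊕ Nt))).Finite :=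
    Set.finite_singleton _
  have h3 : (Set.range (fun e : Sm => ((Nt.all, [Sum.inr (Nt.el e)]) :
    Nt × List (Gen ⊕ Nt)))).Finite := Set.finite_range _
  have h4 : (Set.range (fun e : Sm => ((Nt.el e, lts (gw e.1)) :
    Nt × List (Gen ⊕ Nt)))).Finite := Set.finite_range _
  have h5 : ((fun q : Grig × Nt × Nt => ((Nt.big, rhsBig q.1 q.2.1 q.2.2) :
      Nt × List (Gen ⊕ Nt))) '' ((Set.range rp) ×ˢ (Set.univ : Set (Nt × Nt)))).Finite :=
    (rp_range_finite.prod Set.finite_univ).image _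
  apply (h1.union (h2.union (h3.union (h4.union h5)))).subset
  rintro q (⟨g, rfl⟩ | rfl | ⟨e, rfl⟩ | ⟨e, rfl⟩ | ⟨g, -, -, rfl⟩)
  · exact Or.inl ⟨g, rfl⟩
  · exact Or.inr (Or.inl rfl)
  · exact Or.inr (Or.inr (Or.inl ⟨e, rfl⟩))
  · exact Or.inr (Or.inr (Or.inr (Or.inl ⟨e, rfl⟩)))
  · exact Or.inr (Or.inr (Or.inr (Or.inr ⟨(rp g, cd (co g).1, cd (co g).2),
      ⟨⟨g, rfl⟩, Set.mem_univ _⟩, rfl⟩)))

theorem popRules_finite : popRules.Finite := by
  have h1 : (Set.range (fun s : Gen => ((Nt.lt s, Fl.bot, [Sum.inl s]) :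
    Nt × Fl × List (Gen ⊕ Nt)))).Finite := Set.finite_range _
  have h2 : (Set.range (fun s : Gen => ((Nt.lt s, Fl.tau, lts (sig s)) :
    Nt × Fl × List (Gen ⊕ Nt)))).Finite := Set.finite_range _
  apply (h1.union h2).subset
  rintro q (⟨s, rfl⟩ | ⟨s, rfl⟩)
  · exact Or.inl ⟨s, rfl⟩
  · exact Or.inr ⟨s, rfl⟩

/-- the grammar -/
def GG : IndexedGrammar Gen where
  N := Nt
  F := Fl
  start := .start
  plain := plainRules
  push := pushRules
  pop := popRules
  finN := inferInstance
  finF := inferInstance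
  finPlain := plainRules_finite
  finPop := popRules_finite

/-- the valid stacks -/
def stk (d : ℕ) : List Fl := List.replicate d Fl.tau ++ [Fl.bot]

theorem stk_succ (d : ℕ) : stk (d + 1) = Fl.tau :: stk d := rfl

theorem stk_zero : stk 0 = [Fl.bot] := rfl

theorem stk_inj {d d' : ℕ} (h : stk d = stk d') : d = d' := by
  have := congrArg List.length h
  simpa [stk] using this

/-! ### completeness -/

/-- sentential forms -/
abbrev SF := List (Gen ⊕ (Nt × List Fl))

/-- derivability -/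
abbrev Der (u v : SF) : Prop := Relation.ReflTransGen GG.Step u v

theorem step_ctx' {T : Type} (G : IndexedGrammar T) {u v : List (T ⊕ (G.N × List G.F))}
    (p q : List (T ⊕ (G.N × List G.F))) (h : G.Step u v) :
    G.Step (p ++ u ++ q) (p ++ v ++ q) := by
  cases h with
  | plain A α h σ a b =>
    have := IndexedGrammar.Step.plain (G := G) A α h σ (p ++ a) (b ++ q)
    simpa only [List.append_assoc] using this
  | push A B f h σ a b =>
    have := IndexedGrammar.Step.push (G := G) A B f h σ (p ++ a) (b ++ q)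
    simpa only [List.append_assoc] using this
  | pop A f α h σ a b =>
    have := IndexedGrammar.Step.pop (G := G) A f α h σ (p ++ a) (b ++ q)
    simpa only [List.append_assoc] using this

theorem step_ctx {u v : SF} (p q : SF) (h : GG.Step u v) : GG.Step (p ++ u ++ q) (p ++ v ++ q) :=
  step_ctx' GG p q h

theorem step_elim {T : Type} (G : IndexedGrammar T) {u v : List (T ⊕ (G.N × List G.F))}
    (h : G.Step u v) :
    (∃ A α σ a b, (A, α) ∈ G.plain ∧ u = a ++ [Sum.inr (A, σ)] ++ b ∧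
      v = a ++ attach σ α ++ b) ∨
    (∃ A B f σ a b, (A, B, f) ∈ G.push ∧ u = a ++ [Sum.inr (A, σ)] ++ b ∧
      v = a ++ [Sum.inr (B, f :: σ)] ++ b) ∨
    (∃ A f α σ a b, (A, f, α) ∈ G.pop ∧ u = a ++ [Sum.inr (A, f :: σ)] ++ b ∧
      v = a ++ attach σ α ++ b) := by
  cases h with
  | plain A α h σ a b => exact Or.inl ⟨A, α, σ, a, b, h, rfl, rfl⟩
  | push A B f h σ a b => exact Or.inr (Or.inl ⟨A, B, f, σ, a, b, h, rfl, rfl⟩)
  | pop A f α h σ a b => exact Or.inr (Or.inr ⟨A, f, α, σ, a, b, h, rfl, rfl⟩)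

theorem rtg_map {α : Type} {R : α → α → Prop} (f : α → α) (hf : ∀ u v, R u v → R (f u) (f v))
    {u v : α} (h : Relation.ReflTransGen R u v) : Relation.ReflTransGen R (f u) (f v) := by
  induction h with
  | refl => exact Relation.ReflTransGen.refl
  | tail _ h ih => exact ih.tail (hf _ _ h)

theorem rtg_back {α : Type} {R : α → α → Prop} (p : α → Prop) (hp : ∀ u v, R u v → p v → p u)
    {u v : α} (h : Relation.ReflTransGen R u v) (hv : p v) : p u := by
  induction h with
  | refl => exact hv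
  | tail _ h ih => exact ih (hp _ _ h hv)

theorem der_ctx {u v : SF} (p q : SF) (h : Der u v) : Der (p ++ u ++ q) (p ++ v ++ q) :=
  rtg_map (fun u : SF => p ++ u ++ q) (fun _ _ h => step_ctx p q h) h

theorem der_append {u u' v v' : SF} (h : Der u u') (h' : Der v v') : Der (u ++ v) (u' ++ v') := by
  have h1 := der_ctx [] v h
  have h2 := der_ctx u' [] h'
  simp only [List.nil_append, List.append_nil] at h1 h2
  exact h1.trans h2

theorem der_plain (A : Nt) (α : List (Gen ⊕ Nt)) (h : (A, α) ∈ plainRules) (σ : List Fl) :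
    Der [Sum.inr (A, σ)] (attach σ α) := by
  have := IndexedGrammar.Step.plain (G := GG) A α h σ [] []
  simp only [List.nil_append, List.append_nil] at this
  exact Relation.ReflTransGen.single this

theorem der_push (A B : Nt) (f : Fl) (h : (A, B, f) ∈ pushRules) (σ : List Fl) :
    Der [Sum.inr (A, σ)] [Sum.inr (B, f :: σ)] := by
  have := IndexedGrammar.Step.push (G := GG) A B f h σ [] []
  simp only [List.nil_append, List.append_nil] at this
  exact Relation.ReflTransGen.single this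

theorem der_pop (A : Nt) (f : Fl) (α : List (Gen ⊕ Nt)) (h : (A, f, α) ∈ popRules)
    (σ : List Fl) : Der [Sum.inr (A, f :: σ)] (attach σ α) := by
  have := IndexedGrammar.Step.pop (G := GG) A f α h σ [] []
  simp only [List.nil_append, List.append_nil] at this
  exact Relation.ReflTransGen.single this

theorem attach_append (σ : List Fl) (α β : List (Gen ⊕ Nt)) :
    attach σ (α ++ β) = attach σ α ++ attach σ β := by simp [attach]

theorem attach_lts_cons (σ : List Fl) (s : Gen) (w : List Gen) :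
    attach σ (lts (s :: w)) = [Sum.inr (Nt.lt s, σ)] ++ attach σ (lts w) := by
  simp [attach, lts]

/-- derivation of a letter and of a word of letters -/
theorem der_lts : ∀ (d : ℕ) (w : List Gen),
    Der (attach (stk d) (lts w)) (((ext sig)^[d] w).map Sum.inl) := by
  intro d
  induction d with
  | zero =>
    intro w
    induction w with
    | nil => exact Relation.ReflTransGen.refl
    | cons s w ih =>
      rw [attach_lts_cons]
      have h1 : Der [Sum.inr (Nt.lt s, stk 0)] [Sum.inl s] :=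
        der_pop (Nt.lt s) Fl.bot [Sum.inl s] (Or.inl ⟨s, rfl⟩) []
      exact der_append h1 ih
  | succ d IH =>
    intro w
    induction w with
    | nil =>
      rw [ext_iter_nil]
      exact Relation.ReflTransGen.refl
    | cons s w ih =>
      rw [attach_lts_cons]
      have h1 : Der [Sum.inr (Nt.lt s, stk (d + 1))] (attach (stk d) (lts (sig s))) :=
        der_pop (Nt.lt s) Fl.tau (lts (sig s)) (Or.inr ⟨s, rfl⟩) (stk d)
      have h2 := h1.trans (IH (sig s))
      have e : (ext sig)^[d + 1] (s :: w) = (ext sig)^[d] (sig s) ++ (ext sig)^[d + 1] w := by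
        have e1 : s :: w = [s] ++ w := rfl
        rw [e1, ext_iter_append]
        congr 1
        rw [Function.iterate_succ, Function.comp]
        congr 1
        simp [ext]
      rw [e, List.map_append]
      exact der_append h2 ih

theorem der_el (d : ℕ) (e : Sm) :
    Der [Sum.inr (Nt.el e, stk d)] (((ext sig)^[d] (gw e.1)).map Sum.inl) :=
  (der_plain (Nt.el e) (lts (gw e.1)) (Or.inr (Or.inr (Or.inr (Or.inl ⟨e, rfl⟩)))) _).trans
    (der_lts d _)

theorem der_big : ∀ (n : ℕ) (g : Grig), wordLength g = n → g ∈ Gam → CC < wordLength g →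
    ∀ d, Der [Sum.inr (Nt.big, stk d)] (((ext sig)^[d] (Nw g)).map Sum.inl) := by
  intro n
  induction n using Nat.strong_induction_on with
  | _ n IH =>
    intro g hn hg hbig d
    have hchild : ∀ x : Grig, x ∈ Gam → 2 * wordLength x ≤ wordLength g + CC →
        Der [Sum.inr (cd x, stk d)] (((ext sig)^[d + 1] (Nw x)).map Sum.inl) := by
      intro x hx hl
      by_cases h : wordLength x ≤ CC
      · have hcd : cd x = Nt.pEl ⟨x, hx, h⟩ := by
          unfold cd
          rw [dif_pos ⟨hx, h⟩]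
        rw [hcd, Nw_small h]
        have h1 : Der [Sum.inr (Nt.pEl ⟨x, hx, h⟩, stk d)]
            [Sum.inr (Nt.el ⟨x, hx, h⟩, stk (d + 1))] :=
          der_push _ _ _ (Or.inr (Or.inr ⟨_, rfl⟩)) _
        exact h1.trans (der_el (d + 1) ⟨x, hx, h⟩)
      · have hcd : cd x = Nt.pBig := by
          unfold cd
          rw [dif_neg (fun hh => h hh.2)]
        rw [hcd]
        have h1 : Der [Sum.inr (Nt.pBig, stk d)] [Sum.inr (Nt.big, stk (d + 1))] :=
          der_push _ _ _ (Or.inr (Or.inl rfl)) _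
        exact h1.trans (IH _ (by omega) x rfl hx (by omega) (d + 1))
    have h0 := hchild _ (co_fst_mem g) (co_fst_le g)
    have h1 := hchild _ (co_snd_mem g) (co_snd_le g)
    have ha : Der [Sum.inr (Nt.lt .a, stk d)] (((ext sig)^[d] [Gen.a]).map Sum.inl) :=
      der_lts d [.a]
    have hr := der_plain Nt.big (rhsBig (rp g) (cd (co g).1) (cd (co g).2))
      (Or.inr (Or.inr (Or.inr (Or.inr ⟨g, hg, hbig, rfl⟩)))) (stk d)
    refine hr.trans ?_
    unfold rhsBig
    rw [attach_append, attach_append, attach_append, attach_append]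
    have e : (ext sig)^[d] (Nw g) = (ext sig)^[d] (gw (rp g)) ++ ((ext sig)^[d] [Gen.a] ++
        ((ext sig)^[d + 1] (Nw (co g).1) ++ ((ext sig)^[d] [Gen.a] ++
          (ext sig)^[d + 1] (Nw (co g).2)))) := by
      rw [Nw_big hbig]
      have e1 : comb (Nw (co g).1) (Nw (co g).2) = [Gen.a] ++ (ext sig (Nw (co g).1) ++
        ([Gen.a] ++ ext sig (Nw (co g).2))) := by simp [comb]
      rw [e1, ext_iter_append, ext_iter_append, ext_iter_append, ext_iter_append]
      simp only [Function.iterate_succ, Function.comp]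
    rw [e]
    simp only [List.map_append]
    exact der_append (der_lts d _) (der_append ha (der_append h0 (der_append ha h1)))

theorem der_Wn (g : Grig) : Wn g ∈ GG.language := by
  show Der [Sum.inr (Nt.start, [])] ((Wn g).map Sum.inl)
  have h1 : Der [Sum.inr (Nt.start, [])] [Sum.inr (Nt.top, stk 0)] :=
    der_push _ _ _ (Or.inl rfl) _
  have h2 : Der [Sum.inr (Nt.top, stk 0)] (attach (stk 0) (lts (wd (rt g)) ++ [Sum.inr Nt.all])) :=
    der_plain _ _ (Or.inl ⟨g, rfl⟩) _
  refine (h1.trans h2).trans ?_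
  rw [attach_append]
  unfold Wn
  rw [List.map_append]
  apply der_append
  · exact der_lts 0 _
  · show Der [Sum.inr (Nt.all, stk 0)] _
    by_cases h : wordLength ((rt g)⁻¹ * g) ≤ CC
    · rw [Nw_small h]
      have h3 : Der [Sum.inr (Nt.all, stk 0)] [Sum.inr (Nt.el ⟨_, rt_mem g, h⟩, stk 0)] :=
        der_plain Nt.all [Sum.inr (Nt.el ⟨_, rt_mem g, h⟩)] (Or.inr (Or.inr (Or.inl ⟨_, rfl⟩))) _
      exact h3.trans (der_el 0 ⟨_, rt_mem g, h⟩)
    · have h3 : Der [Sum.inr (Nt.all, stk 0)] [Sum.inr (Nt.big, stk 0)] :=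
        der_plain Nt.all [Sum.inr Nt.big] (Or.inr (Or.inl rfl)) _
      exact h3.trans (der_big _ _ rfl (rt_mem g) (by omega) 0)

/-! ### soundness -/

/-- words that a nonterminal with a stack may produce -/
def Dn : Nt → List Fl → Set (List Gen)
  | .start, σ => {w | σ = [] → w ∈ Set.range Wn}
  | .top, σ => {w | σ = stk 0 → w ∈ Set.range Wn}
  | .all, σ => {w | ∀ d, σ = stk d → ∃ g ∈ Gam, w = (ext sig)^[d] (Nw g)}
  | .big, σ => {w | ∀ d, σ = stk d → ∃ g ∈ Gam, CC < wordLength g ∧ w = (ext sig)^[d] (Nw g)}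
  | .el e, σ => {w | ∀ d, σ = stk d → w = (ext sig)^[d] (gw e.1)}
  | .pBig, σ => {w | ∀ d, σ = stk d → ∃ g ∈ Gam, CC < wordLength g ∧
      w = (ext sig)^[d + 1] (Nw g)}
  | .pEl e, σ => {w | ∀ d, σ = stk d → w = (ext sig)^[d + 1] (gw e.1)}
  | .lt s, σ => {w | ∀ d, σ = stk d → w = (ext sig)^[d] [s]}

/-- words that a sentential form may produce -/
def Den : SF → Set (List Gen)
  | [] => {[]}
  | Sum.inl s :: r => {w | ∃ w' ∈ Den r, w = s :: w'}
  | Sum.inr (A, σ) :: r => {w | ∃ w0 ∈ Dn A σ, ∃ w' ∈ Den r, w = w0 ++ w'}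

theorem Den_append (u v : SF) (w : List Gen) :
    w ∈ Den (u ++ v) ↔ ∃ w0 ∈ Den u, ∃ w1 ∈ Den v, w = w0 ++ w1 := by
  induction u generalizing w with
  | nil => simp [Den]
  | cons x u ih =>
    rcases x with s | ⟨A, σ⟩
    · simp only [List.cons_append, Den, Set.mem_ofPred_eq]
      constructor
      · rintro ⟨w', h, rfl⟩
        obtain ⟨w0, h0, w1, h1, rfl⟩ := (ih w').1 h
        exact ⟨s :: w0, ⟨w0, h0, rfl⟩, w1, h1, rfl⟩
      · rintro ⟨w0, ⟨w', h', rfl⟩, w1, h1, rfl⟩
        exact ⟨w' ++ w1, (ih _).2 ⟨w', h', w1, h1, rfl⟩, rfl⟩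
    · simp only [List.cons_append, Den, Set.mem_ofPred_eq]
      constructor
      · rintro ⟨wa, ha, w', h, rfl⟩
        obtain ⟨w0, h0, w1, h1, rfl⟩ := (ih w').1 h
        exact ⟨wa ++ w0, ⟨wa, ha, w0, h0, rfl⟩, w1, h1, by simp⟩
      · rintro ⟨w0, ⟨wa, ha, w', h', rfl⟩, w1, h1, rfl⟩
        exact ⟨wa, ha, w' ++ w1, (ih _).2 ⟨w', h', w1, h1, rfl⟩, by simp⟩

theorem Den_single (A : Nt) (σ : List Fl) (w : List Gen) :
    w ∈ Den [Sum.inr (A, σ)] ↔ w ∈ Dn A σ := by
  simp [Den]

theorem Den_terminal (w : List Gen) : w ∈ Den (w.map Sum.inl) := by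
  induction w with
  | nil => rfl
  | cons s w ih => exact ⟨w, ih, rfl⟩

/-- letters -/
theorem Den_lts (d : ℕ) (u w : List Gen) (h : w ∈ Den (attach (stk d) (lts u))) :
    w = (ext sig)^[d] u := by
  induction u generalizing w with
  | nil =>
    rw [ext_iter_nil]
    exact h
  | cons s u ih =>
    rw [attach_lts_cons, Den_append] at h
    obtain ⟨w0, h0, w1, h1, rfl⟩ := h
    rw [Den_single] at h0
    have e0 : w0 = (ext sig)^[d] [s] := h0 d rfl
    rw [e0, ih w1 h1]
    have e1 : s :: u = [s] ++ u := rfl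
    rw [e1, ext_iter_append]

/-- children -/
theorem Den_child (d : ℕ) (x : Grig) (hx : x ∈ Gam) (w : List Gen) (h : w ∈ Dn (cd x) (stk d)) :
    ∃ y ∈ Gam, w = (ext sig)^[d + 1] (Nw y) ∧ (wordLength y ≤ CC → y = x) := by
  by_cases hs : wordLength x ≤ CC
  · have hcd : cd x = Nt.pEl ⟨x, hx, hs⟩ := by
      unfold cd
      rw [dif_pos ⟨hx, hs⟩]
    rw [hcd] at h
    refine ⟨x, hx, ?_, fun _ => rfl⟩
    rw [Nw_small hs]
    exact h d rfl
  · have hcd : cd x = Nt.pBig := by
      unfold cd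
      rw [dif_neg (fun hh => hs hh.2)]
    rw [hcd] at h
    obtain ⟨y, hy, hyb, hw⟩ := h d rfl
    exact ⟨y, hy, hw, fun h' => absurd h' (by omega)⟩

theorem sound_plain (A : Nt) (α : List (Gen ⊕ Nt)) (h : (A, α) ∈ plainRules) (σ : List Fl)
    (w : List Gen) (hw : w ∈ Den (attach σ α)) : w ∈ Dn A σ := by
  rcases h with ⟨g, h⟩ | h | ⟨e, h⟩ | ⟨e, h⟩ | ⟨g, hg, hbig, h⟩
  · simp only [Prod.mk.injEq] at h
    obtain ⟨rfl, rfl⟩ := h
    intro hσ
    subst hσ
    rw [attach_append, Den_append] at hw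
    obtain ⟨w0, h0, w1, h1, rfl⟩ := hw
    have e0 := Den_lts 0 _ _ h0
    have h1' : w1 ∈ Dn Nt.all (stk 0) := (Den_single _ _ _).1 h1
    obtain ⟨y, hy, hw1⟩ := h1' 0 rfl
    refine ⟨rt g * y, ?_⟩
    unfold Wn
    rw [rt_eq g hy, inv_mul_cancel_left, e0, hw1]
    rfl
  · simp only [Prod.mk.injEq] at h
    obtain ⟨rfl, rfl⟩ := h
    intro d hσ
    have h1' : w ∈ Dn Nt.big σ := (Den_single _ _ _).1 hw
    obtain ⟨g, hg, -, hw⟩ := h1' d hσ
    exact ⟨g, hg, hw⟩
  · simp only [Prod.mk.injEq] at h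
    obtain ⟨rfl, rfl⟩ := h
    intro d hσ
    have h1' : w ∈ Dn (Nt.el e) σ := (Den_single _ _ _).1 hw
    have h2 := h1' d hσ
    refine ⟨e.1, e.2.1, ?_⟩
    rw [Nw_small e.2.2]
    exact h2
  · simp only [Prod.mk.injEq] at h
    obtain ⟨rfl, rfl⟩ := h
    intro d hσ
    subst hσ
    exact Den_lts d _ _ hw
  · simp only [Prod.mk.injEq] at h
    obtain ⟨rfl, rfl⟩ := h
    intro d hσ
    subst hσ
    unfold rhsBig at hw
    rw [attach_append, attach_append, attach_append, attach_append, Den_append] at hw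
    obtain ⟨w0, h0, w1, h1, rfl⟩ := hw
    rw [Den_append] at h1
    obtain ⟨w2, h2, w3, h3, rfl⟩ := h1
    rw [Den_append] at h3
    obtain ⟨w4, h4, w5, h5, rfl⟩ := h3
    rw [Den_append] at h5
    obtain ⟨w6, h6, w7, h7, rfl⟩ := h5
    have e0 := Den_lts d _ _ h0
    have e2 : w2 = (ext sig)^[d] [Gen.a] := (Den_single _ _ _).1 h2 d rfl
    have e6 : w6 = (ext sig)^[d] [Gen.a] := (Den_single _ _ _).1 h6 d rfl
    have h4' : w4 ∈ Dn (cd (co g).1) (stk d) := (Den_single _ _ _).1 h4
    have h7' : w7 ∈ Dn (cd (co g).2) (stk d) := (Den_single _ _ _).1 h7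
    obtain ⟨y0, hy0, e4, s0⟩ := Den_child d _ (co_fst_mem g) _ h4'
    obtain ⟨y1, hy1, e7, s1⟩ := Den_child d _ (co_snd_mem g) _ h7'
    have k0 := Nw_good hy0
    have k1 := Nw_good hy1
    obtain ⟨hr, hc⟩ := decomp_comb (g := g) hy0 hy1 k0 k1 (vg_Nw hy0) (vg_Nw hy1)
    set g' := rp g * vg (comb (Nw y0) (Nw y1)) with hg'
    have hg'Gam : g' ∈ Gam :=
      Gam.mul_mem (rp_Gam hg) ⟨comb (Nw y0) (Nw y1), good_comb k0 k1, rfl⟩
    have hbig' : CC < wordLength g' := by
      by_contra hcon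
      have l0 := co_fst_le g'
      have l1 := co_snd_le g'
      rw [hc] at l0 l1
      simp only at l0 l1
      have t0 := s0 (by omega)
      have t1 := s1 (by omega)
      have : g' = g := by
        rw [hg']
        apply recomp g k0 k1
        · rw [vg_Nw hy0, t0]
        · rw [vg_Nw hy1, t1]
      rw [this] at hcon
      exact hcon hbig
    refine ⟨g', hg'Gam, hbig', ?_⟩
    rw [Nw_big hbig', hr, hc, e0, e2, e4, e6, e7]
    have e1 : comb (Nw y0) (Nw y1) = [Gen.a] ++ (ext sig (Nw y0) ++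
      ([Gen.a] ++ ext sig (Nw y1))) := by simp [comb]
    simp only
    rw [e1, ext_iter_append, ext_iter_append, ext_iter_append, ext_iter_append]
    simp only [Function.iterate_succ, Function.comp]

theorem sound_push (A B : Nt) (f : Fl) (h : (A, B, f) ∈ pushRules) (σ : List Fl)
    (w : List Gen) (hw : w ∈ Dn B (f :: σ)) : w ∈ Dn A σ := by
  rcases h with h | h | ⟨e, h⟩
  · simp only [Prod.mk.injEq] at h
    obtain ⟨rfl, rfl, rfl⟩ := h
    intro hσ
    subst hσ
    exact hw rfl
  · simp only [Prod.mk.injEq] at h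
    obtain ⟨rfl, rfl, rfl⟩ := h
    intro d hσ
    subst hσ
    exact hw (d + 1) rfl
  · simp only [Prod.mk.injEq] at h
    obtain ⟨rfl, rfl, rfl⟩ := h
    intro d hσ
    subst hσ
    exact hw (d + 1) rfl

theorem sound_pop (A : Nt) (f : Fl) (α : List (Gen ⊕ Nt)) (h : (A, f, α) ∈ popRules)
    (σ : List Fl) (w : List Gen) (hw : w ∈ Den (attach σ α)) : w ∈ Dn A (f :: σ) := by
  rcases h with ⟨s, h⟩ | ⟨s, h⟩
  · simp only [Prod.mk.injEq] at h
    obtain ⟨rfl, rfl, rfl⟩ := h
    intro d hσ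
    match d, hσ with
    | 0, _ =>
      obtain ⟨w', hw', rfl⟩ := hw
      have : w' = [] := hw'
      rw [this]
      rfl
    | d + 1, hσ =>
      rw [stk_succ] at hσ
      simp at hσ
  · simp only [Prod.mk.injEq] at h
    obtain ⟨rfl, rfl, rfl⟩ := h
    intro d hσ
    match d, hσ with
    | 0, hσ =>
      rw [stk_zero] at hσ
      simp at hσ
    | d + 1, hσ =>
      rw [stk_succ] at hσ
      simp only [List.cons.injEq, true_and] at hσ
      subst hσ
      have := Den_lts d _ _ hw
      rw [this, Function.iterate_succ, Function.comp]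
      congr 1
      simp [ext]

theorem sound_ctx (a b x y : SF) (hxy : ∀ w ∈ Den y, w ∈ Den x) (w : List Gen)
    (hw : w ∈ Den (a ++ y ++ b)) : w ∈ Den (a ++ x ++ b) := by
  rw [Den_append] at hw ⊢
  obtain ⟨w0, h0, w1, h1, rfl⟩ := hw
  rw [Den_append] at h0
  obtain ⟨w2, h2, w3, h3, rfl⟩ := h0
  refine ⟨w2 ++ w3, ?_, w1, h1, rfl⟩
  rw [Den_append]
  exact ⟨w2, h2, w3, hxy w3 h3, rfl⟩

theorem sound_step {u v : SF} (h : GG.Step u v) (w : List Gen) (hw : w ∈ Den v) : w ∈ Den u := by
  rcases step_elim GG h with ⟨A, α, σ, a, b, hr, rfl, rfl⟩ | ⟨A, B, f, σ, a, b, hr, rfl, rfl⟩ |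
    ⟨A, f, α, σ, a, b, hr, rfl, rfl⟩
  · exact sound_ctx a b [Sum.inr (A, σ)] (attach σ α)
      (fun w' h' => (Den_single _ _ _).2 (sound_plain A α hr σ w' h')) w hw
  · exact sound_ctx a b [Sum.inr (A, σ)] [Sum.inr (B, f :: σ)]
      (fun w' h' => (Den_single _ _ _).2 (sound_push A B f hr σ w' ((Den_single _ _ _).1 h')))
      w hw
  · exact sound_ctx a b [Sum.inr (A, f :: σ)] (attach σ α)
      (fun w' h' => (Den_single _ _ _).2 (sound_pop A f α hr σ w' h')) w hw

theorem sound_der {u v : SF} (h : Der u v) (w : List Gen)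
    (hw : w ∈ Den v) : w ∈ Den u :=
  rtg_back (fun u : SF => w ∈ Den u) (fun _ _ h hv => sound_step h w hv) h hw

theorem language_eq : GG.language = Set.range Wn := by
  apply Set.Subset.antisymm
  · intro w hw
    have h1 := sound_der (show Der [Sum.inr (Nt.start, [])] (w.map Sum.inl) from hw) w
      (Den_terminal w)
    have h2 : w ∈ Dn Nt.start [] := (Den_single _ _ _).1 h1
    exact h2 rfl
  · rintro _ ⟨g, rfl⟩
    exact der_Wn g

/-! ### the length bound -/

/-- number of letters a -/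
def na : List Gen → ℕ
  | [] => 0
  | .a :: w => na w + 1
  | .b :: w => na w
  | .c :: w => na w
  | .d :: w => na w

theorem na_append (u v : List Gen) : na (u ++ v) = na u + na v := by
  induction u with
  | nil => simp [na]
  | cons s u ih => cases s <;> simp only [List.cons_append, na, ih] <;> omega

theorem na_le (u : List Gen) : na u ≤ u.length := by
  induction u with
  | nil => simp [na]
  | cons s u ih => cases s <;> simp only [na, List.length_cons] <;> omega

theorem na_sig (u : List Gen) : na (ext sig u) = 2 * na u := by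
  induction u with
  | nil => simp [na, ext]
  | cons s u ih =>
    have e : ext sig (s :: u) = sig s ++ ext sig u := by simp [ext]
    rw [e, na_append, ih]
    cases s <;> simp only [na, sig] <;> omega

theorem length_sig (u : List Gen) : (ext sig u).length = u.length + 2 * na u := by
  induction u with
  | nil => simp [na, ext]
  | cons s u ih =>
    have e : ext sig (s :: u) = sig s ++ ext sig u := by simp [ext]
    rw [e, List.length_append, ih]
    cases s <;> simp only [na, sig, List.length_cons, List.length_nil] <;> omega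

theorem na_comb (w0 w1 : List Gen) : na (comb w0 w1) = 2 + 2 * na w0 + 2 * na w1 := by
  unfold comb
  rw [na, na_append, na_sig, na, na_sig]
  ring

theorem length_comb (w0 w1 : List Gen) :
    (comb w0 w1).length = 2 + (w0.length + 2 * na w0) + (w1.length + 2 * na w1) := by
  unfold comb
  rw [List.length_cons, List.length_append, List.length_cons, length_sig, length_sig]
  ring

theorem exists_M : ∃ M : ℕ, (∀ g : Grig, (gw (rp g)).length ≤ M) ∧
    (∀ g : Grig, wordLength g ≤ CC → (gw g).length ≤ M) ∧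
    (∀ g : Grig, (wd (rt g)).length ≤ M) ∧ ∀ g : Grig, wordLength (rt g)⁻¹ ≤ M := by
  obtain ⟨M1, h1⟩ := (rp_range_finite.image (fun g => (gw g).length)).bddAbove
  obtain ⟨M2, h2⟩ := ((finite_ball CC).image (fun g => (gw g).length)).bddAbove
  obtain ⟨M3, h3⟩ := (rt_range_finite.image (fun g => (wd g).length)).bddAbove
  obtain ⟨M4, h4⟩ := (rt_range_finite.image (fun g => wordLength g⁻¹)).bddAbove
  refine ⟨M1 + M2 + M3 + M4, fun g => ?_, fun g hg => ?_, fun g => ?_, fun g => ?_⟩
  · have := h1 ⟨rp g, ⟨g, rfl⟩, rfl⟩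
    simp only at this
    omega
  · have := h2 ⟨g, hg, rfl⟩
    simp only at this
    omega
  · have := h3 ⟨rt g, ⟨g, rfl⟩, rfl⟩
    simp only at this
    omega
  · have := h4 ⟨rt g, ⟨g, rfl⟩, rfl⟩
    simp only at this
    omega

theorem Nw_length {M : ℕ} (hM1 : ∀ g : Grig, (gw (rp g)).length ≤ M)
    (hM2 : ∀ g : Grig, wordLength g ≤ CC → (gw g).length ≤ M) (D : ℕ) :
    ∀ g : Grig, wordLength g < CC + 2 ^ D →
      na (Nw g) + (M + 2) ≤ 4 * (M + 2) * 4 ^ D ∧
        (Nw g).length + (M + 2) ≤ 13 * (M + 2) * 4 ^ D := by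
  induction D with
  | zero =>
    intro g hg
    have hs : wordLength g ≤ CC := by omega
    rw [Nw_small hs]
    have h1 := hM2 g hs
    have h2 := na_le (gw g)
    simp only [pow_zero, mul_one]
    omega
  | succ D ih =>
    intro g hg
    have h4 : 1 ≤ 4 ^ D := Nat.one_le_pow _ _ (by norm_num)
    have e4 : (4 : ℕ) ^ (D + 1) = 4 * 4 ^ D := by ring
    have e2 : (2 : ℕ) ^ (D + 1) = 2 * 2 ^ D := by ring
    by_cases hs : wordLength g ≤ CC
    · rw [Nw_small hs]
      have h1 := hM2 g hs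
      have h2 := na_le (gw g)
      rw [e4]
      constructor <;> nlinarith
    · rw [Nw_big (by omega)]
      have l0 := co_fst_le g
      have l1 := co_snd_le g
      rw [e2] at hg
      obtain ⟨a0, b0⟩ := ih (co g).1 (by omega)
      obtain ⟨a1, b1⟩ := ih (co g).2 (by omega)
      have h1 := hM1 g
      have h2 := na_le (gw (rp g))
      rw [na_append, List.length_append, na_comb, length_comb, e4]
      set X := (M + 2) * 4 ^ D with hX
      have hX1 : M + 2 ≤ X := by rw [hX]; nlinarith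
      have a0' : na (Nw (co g).1) + (M + 2) ≤ 4 * X := by rw [hX]; linarith
      have a1' : na (Nw (co g).2) + (M + 2) ≤ 4 * X := by rw [hX]; linarith
      have b0' : (Nw (co g).1).length + (M + 2) ≤ 13 * X := by rw [hX]; linarith
      have b1' : (Nw (co g).2).length + (M + 2) ≤ 13 * X := by rw [hX]; linarith
      have g1 : 4 * (M + 2) * (4 * 4 ^ D) = 16 * X := by rw [hX]; ring
      have g2 : 13 * (M + 2) * (4 * 4 ^ D) = 52 * X := by rw [hX]; ring
      rw [g1, g2]
      omega

theorem Wn_length : ∃ C : ℕ, ∀ g : Grig, (Wn g).length ≤ C * (wordLength g + 1) ^ 2 := by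
  obtain ⟨M, hM1, hM2, hM3, hM4⟩ := exists_M
  refine ⟨M + 13 * (M + 2) * (2 * M + 2) ^ 2, fun g => ?_⟩
  unfold Wn
  rw [List.length_append]
  set x := (rt g)⁻¹ * g with hx
  have h1 := hM3 g
  have h2 : wordLength x ≤ M + wordLength g := (wl_mul _ _).trans (by have := hM4 g; omega)
  have h3 : wordLength x < CC + 2 ^ (Nat.size (wordLength x)) := by
    have := Nat.lt_size_self (wordLength x)
    omega
  obtain ⟨-, h4⟩ := Nw_length hM1 hM2 _ x h3
  have h5 : 2 ^ (Nat.size (wordLength x)) ≤ 2 * wordLength x + 1 := by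
    rcases Nat.eq_zero_or_pos (wordLength x) with h0 | h0
    · rw [h0, Nat.size_zero]; norm_num
    · have hs : 0 < Nat.size (wordLength x) := Nat.size_pos.2 h0
      have h6 : 2 ^ (Nat.size (wordLength x) - 1) ≤ wordLength x := Nat.lt_size.1 (by omega)
      have h7 : 2 ^ Nat.size (wordLength x) = 2 * 2 ^ (Nat.size (wordLength x) - 1) := by
        rw [← pow_succ']
        congr 1
        omega
      omega
  have h6 : 2 ^ (Nat.size (wordLength x)) ≤ (2 * M + 2) * (wordLength g + 1) := by nlinarith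
  have h7 : 4 ^ (Nat.size (wordLength x)) ≤ ((2 * M + 2) * (wordLength g + 1)) ^ 2 := by
    have e : (4 : ℕ) ^ (Nat.size (wordLength x)) = (2 ^ (Nat.size (wordLength x))) ^ 2 := by
      rw [← pow_mul, mul_comm, pow_mul]
      norm_num
    rw [e]
    exact Nat.pow_le_pow_left h6 2
  have h8 : (Nw x).length ≤ 13 * (M + 2) * ((2 * M + 2) * (wordLength g + 1)) ^ 2 := by
    have := Nat.mul_le_mul_left (13 * (M + 2)) h7
    omega
  have h9 : M ≤ M * (wordLength g + 1) ^ 2 := by
    have : 1 ≤ (wordLength g + 1) ^ 2 := Nat.one_le_pow _ _ (by omega)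
    nlinarith
  calc (wd (rt g)).length + (Nw x).length
      ≤ M * (wordLength g + 1) ^ 2 + 13 * (M + 2) * ((2 * M + 2) * (wordLength g + 1)) ^ 2 := by
        omega
    _ = (M + 13 * (M + 2) * (2 * M + 2) ^ 2) * (wordLength g + 1) ^ 2 := by ring

/-- The Grigorchuk group has an indexed normal form of quadratically bounded length. -/
theorem indexed_normal_form : ∃ L : Set (List Gen), IsIndexed L ∧
    (∀ g : Grig, ∃! w, w ∈ L ∧ (w.map gen).prod = g) ∧
    ∃ C : ℕ, ∀ w ∈ L, w.length ≤ C * (wordLength (w.map gen).prod + 1) ^ 2 := by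
  refine ⟨Set.range Wn, ⟨GG, language_eq⟩, ?_, ?_⟩
  · intro g
    refine ⟨Wn g, ⟨⟨g, rfl⟩, vg_Wn g⟩, ?_⟩
    rintro w ⟨⟨h, rfl⟩, hw⟩
    have : vg (Wn h) = g := hw
    rw [vg_Wn] at this
    rw [this]
  · obtain ⟨C, hC⟩ := Wn_length
    refine ⟨C, ?_⟩
    rintro _ ⟨g, rfl⟩
    have : ((Wn g).map gen).prod = g := vg_Wn g
    rw [this]
    exact hC g

end Pool.Agent.H57.EDT
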