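import Mathlib

/-! Indexed grammars and indexed languages. -/

namespace Pool.Agent.H57.EDT

/-- Indexed grammars over the terminal alphabet `T`: finite sets `N` of nonterminals and `F` of
flags, a start symbol, and finitely many productions of the three kinds `A → α`, `A → B f` and
`A f → α`, with `α` a word over terminals and nonterminals. -/
structure IndexedGrammar (T : Type) where
  /-- nonterminals -/
  N : Type
  /-- flags -/
  F : Type
  /-- start symbol -/
  start : N
  /-- productions `A → α` -/
  plain : Set (N × List (T ⊕ N))
  /-- productions `A → B f` -/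
  push : Set (N × N × F)
  /-- productions `A f → α` -/
  pop : Set (N × F × List (T ⊕ N))
  finN : Finite N
  finF : Finite F
  finPlain : plain.Finite
  finPop : pop.Finite

/-- Attach the stack `σ` of flags to every nonterminal of a word. -/
def attach {T N F : Type} (σ : List F) (α : List (T ⊕ N)) : List (T ⊕ (N × List F)) :=
  α.map (Sum.map id (fun B => (B, σ)))

/-- One step of a derivation: rewriting one nonterminal with its stack. -/
inductive IndexedGrammar.Step {T : Type} (G : IndexedGrammar T) :
    List (T ⊕ (G.N × List G.F)) → List (T ⊕ (G.N × List G.F)) → Prop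
  | plain (A : G.N) (α : List (T ⊕ G.N)) (h : (A, α) ∈ G.plain) (σ : List G.F)
      (u v : List (T ⊕ (G.N × List G.F))) :
      G.Step (u ++ [Sum.inr (A, σ)] ++ v) (u ++ attach σ α ++ v)
  | push (A B : G.N) (f : G.F) (h : (A, B, f) ∈ G.push) (σ : List G.F)
      (u v : List (T ⊕ (G.N × List G.F))) :
      G.Step (u ++ [Sum.inr (A, σ)] ++ v) (u ++ [Sum.inr (B, f :: σ)] ++ v)
  | pop (A : G.N) (f : G.F) (α : List (T ⊕ G.N)) (h : (A, f, α) ∈ G.pop) (σ : List G.F)
      (u v : List (T ⊕ (G.N × List G.F))) :
      G.Step (u ++ [Sum.inr (A, f :: σ)] ++ v) (u ++ attach σ α ++ v)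

/-- The language of an indexed grammar: the terminal words derived from the start symbol with
the empty stack. -/
def IndexedGrammar.language {T : Type} (G : IndexedGrammar T) : Set (List T) :=
  {w | Relation.ReflTransGen G.Step [Sum.inr (G.start, [])] (w.map Sum.inl)}

/-- Indexed languages. -/
def IsIndexed {T : Type} (L : Set (List T)) : Prop :=
  ∃ G : IndexedGrammar T, G.language = L

end Pool.Agent.H57.EDT
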