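import Pool.Agent.H57.EDT.Defs

/-! The first Grigorchuk group is a torsion group. -/

namespace Pool.Agent.H57.EDT

/-- torsion element -/
def Tor (g : Equiv.Perm (List Bool)) : Prop := ∃ n : ℕ, 0 < n ∧ g ^ n = 1

theorem Tor.one : Tor 1 := ⟨1, one_pos, by simp⟩

theorem Tor.of_sq {g : Equiv.Perm (List Bool)} (h : Tor (g * g)) : Tor g := by
  obtain ⟨n, hn, h⟩ := h
  refine ⟨2 * n, by omega, ?_⟩
  rw [pow_mul, pow_two, h]

theorem Tor.conj {g u : Equiv.Perm (List Bool)} (h : Tor g) : Tor (u * g * u⁻¹) := by
  obtain ⟨n, hn, h⟩ := h
  refine ⟨n, hn, ?_⟩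
  rw [conj_pow, h]
  simp

theorem Tor.comm {g u : Equiv.Perm (List Bool)} (h : Tor (g * u)) : Tor (u * g) := by
  have := h.conj (u := u)
  have e : u * (g * u) * u⁻¹ = u * g := by group
  rwa [e] at this

/-- an element fixing the first level -/
theorem Tor.of_sections {g g0 g1 : Equiv.Perm (List Bool)} (hn : g [] = [])
    (h0 : ∀ v, g (false :: v) = false :: g0 v) (h1 : ∀ v, g (true :: v) = true :: g1 v)
    (t0 : Tor g0) (t1 : Tor g1) : Tor g := by
  obtain ⟨n, hn0, hn⟩ := t0
  obtain ⟨m, hm0, hm⟩ := t1
  have k0 : ∀ k v, (g ^ k) (false :: v) = false :: (g0 ^ k) v := by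
    intro k
    induction k with
    | zero => intro v; rfl
    | succ k ih => intro v; rw [pow_succ', pow_succ', Equiv.Perm.mul_apply, ih, h0]; rfl
  have k1 : ∀ k v, (g ^ k) (true :: v) = true :: (g1 ^ k) v := by
    intro k
    induction k with
    | zero => intro v; rfl
    | succ k ih => intro v; rw [pow_succ', pow_succ', Equiv.Perm.mul_apply, ih, h1]; rfl
  have kn : ∀ k, (g ^ k) [] = [] := by
    intro k
    induction k with
    | zero => rfl
    | succ k ih => rw [pow_succ', Equiv.Perm.mul_apply, ih]; assumption
  refine ⟨n * m, Nat.mul_pos hn0 hm0, ?_⟩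
  ext1 v
  match v with
  | [] => rw [kn]; rfl
  | false :: v => rw [k0, pow_mul, hn, one_pow]; rfl
  | true :: v => rw [k1, mul_comm n m, pow_mul, hm, one_pow]; rfl

/-- The three letters b, c, d. -/
inductive X3
  | b | c | d
  deriving DecidableEq, Fintype

/-- as a generator -/
def X3.g : X3 → Gen
  | .b => .b
  | .c => .c
  | .d => .d

/-- as a permutation -/
def xp (x : X3) : Equiv.Perm (List Bool) := genPerm x.g

/-- the generator a -/
def ap : Equiv.Perm (List Bool) := genPerm .a

/-- successor: b, c, d are mapped to c, d, b -/
def X3.next : X3 → X3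
  | .b => .c
  | .c => .d
  | .d => .b

/-- is the other coordinate `a`? -/
def X3.eps : X3 → Bool
  | .b => true
  | .c => true
  | .d => false

/-- power of a -/
def apow (e : Bool) : Equiv.Perm (List Bool) := if e then ap else 1

theorem ap_cons (x : Bool) (v : List Bool) : ap (x :: v) = (!x) :: v := rfl

theorem ap_nil : ap [] = [] := rfl

theorem xp_nil (x : X3) : xp x [] = [] := by cases x <;> rfl

theorem xp_true (x : X3) (v : List Bool) : xp x (true :: v) = true :: xp x.next v := by
  cases x <;> rfl

theorem xp_false (x : X3) (v : List Bool) :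
    xp x (false :: v) = false :: apow x.eps v := by
  cases x <;> rfl

theorem genPerm_sq (s : Gen) : genPerm s * genPerm s = 1 := by
  ext1 v
  exact act_act s v

theorem ap_sq : ap * ap = 1 := genPerm_sq _

theorem xp_sq (x : X3) : xp x * xp x = 1 := genPerm_sq _

theorem apow_sq (e : Bool) : apow e * apow e = 1 := by
  cases e
  · simp [apow]
  · exact ap_sq

theorem apow_xor (e f : Bool) : apow e * apow f = apow (xor e f) := by
  cases e <;> cases f <;> simp [apow, ap_sq]

/-- third letter -/
def third : X3 → X3 → X3
  | .b, .c => .d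
  | .c, .b => .d
  | .b, .d => .c
  | .d, .b => .c
  | .c, .d => .b
  | .d, .c => .b
  | x, _ => x

theorem xp_mul (x y : X3) (h : x ≠ y) : xp x * xp y = xp (third x y) := by
  have key : ∀ (v : List Bool) (x y : X3), x ≠ y → (xp x) ((xp y) v) = xp (third x y) v := by
    intro v
    induction v with
    | nil => intro x y _; rw [xp_nil, xp_nil, xp_nil]
    | cons b v ih =>
      intro x y hxy
      cases b
      · rw [xp_false, xp_false, xp_false]
        have : (apow x.eps) ((apow y.eps) v) = (apow x.eps * apow y.eps) v := rfl
        rw [this, apow_xor]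
        congr 2
        cases x <;> cases y <;> simp_all [X3.eps, third]
      · rw [xp_true, xp_true, xp_true, ih]
        · congr 2
          cases x <;> cases y <;> simp_all [X3.next, third]
        · cases x <;> cases y <;> simp_all [X3.next]
  ext1 v
  exact key v x y h

/-- product of the elements x * a^e -/
def P (l : List (X3 × Bool)) : Equiv.Perm (List Bool) :=
  (l.map (fun q => xp q.1 * apow q.2)).prod

theorem P_nil : P [] = 1 := rfl

theorem P_cons (q : X3 × Bool) (l : List (X3 × Bool)) :
    P (q :: l) = xp q.1 * apow q.2 * P l := by simp [P]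

theorem P_append (l l' : List (X3 × Bool)) : P (l ++ l') = P l * P l' := by simp [P]

/-- product of the elements x * a -/
def V (xs : List X3) : Equiv.Perm (List Bool) := P (xs.map (fun x => (x, true)))

theorem V_cons (x : X3) (xs : List X3) : V (x :: xs) = xp x * ap * V xs := by
  simp [V, P_cons, apow]

theorem V_append (xs ys : List X3) : V (xs ++ ys) = V xs * V ys := by simp [V, P_append]

theorem V_nil' (xs : List X3) : V xs [] = [] := by
  induction xs with
  | nil => rfl
  | cons x xs ih =>
    rw [V_cons, Equiv.Perm.mul_apply, ih, Equiv.Perm.mul_apply, ap_nil, xp_nil]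

/-- pairing consecutive letters -/
def pairUp : List X3 → List (X3 × Bool)
  | x :: y :: l => (x.next, y.eps) :: pairUp l
  | _ => []

theorem pairUp_append : ∀ (l l' : List X3), l.length % 2 = 0 →
    pairUp (l ++ l') = pairUp l ++ pairUp l'
  | [], l', _ => by simp [pairUp]
  | [x], l', h => by simp at h
  | x :: y :: l, l', h => by
    simp only [List.cons_append, pairUp]
    rw [pairUp_append l l' (by simp only [List.length_cons] at h; omega)]

theorem pairUp_length : ∀ (l : List X3), (pairUp l).length = l.length / 2
  | [] => rfl
  | [x] => by simp [pairUp]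
  | x :: y :: l => by
    simp only [pairUp, List.length_cons, pairUp_length l]
    omega

theorem V_true : ∀ (xs : List X3), xs.length % 2 = 0 → ∀ v,
    V xs (true :: v) = true :: P (pairUp xs) v
  | [], _, v => rfl
  | [x], h, v => by simp at h
  | x :: y :: l, h, v => by
    rw [V_cons, V_cons, Equiv.Perm.mul_apply, Equiv.Perm.mul_apply (xp y * ap),
      V_true l (by simp only [List.length_cons] at h; omega)]
    simp only [Equiv.Perm.mul_apply, ap_cons, Bool.not_true, Bool.not_false, xp_false, xp_true,
      pairUp, P_cons]

theorem V_false (x : X3) (xs : List X3) (h : (x :: xs).length % 2 = 0) (v : List Bool) :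
    V (x :: xs) (false :: v) =
      false :: (apow x.eps * P (pairUp (xs ++ [x])) * (apow x.eps)⁻¹) v := by
  have hrot : V (x :: xs) = (xp x * ap) * V (xs ++ [x]) * (xp x * ap)⁻¹ := by
    rw [V_append, V_cons]
    have : V [x] = xp x * ap := by rw [V_cons]; simp [V, P_nil]
    rw [this]
    group
  have hinv : (xp x * ap)⁻¹ (false :: v) = true :: (apow x.eps)⁻¹ v := by
    rw [Equiv.Perm.inv_eq_iff_eq]
    rw [Equiv.Perm.mul_apply, ap_cons, Bool.not_true, xp_false]
    simp
  rw [hrot, Equiv.Perm.mul_apply, hinv, Equiv.Perm.mul_apply,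
    V_true (xs ++ [x]) (by simp only [List.length_append, List.length_cons,
      List.length_nil] at h ⊢; omega), Equiv.Perm.mul_apply, ap_cons, Bool.not_true, xp_false]
  rfl

/-- torsion in the even case -/
theorem Tor_V_even (xs : List X3) (h : xs.length % 2 = 0)
    (hp : ∀ ys : List X3, ys.length = xs.length → (ys = xs ∨ ∃ x l, xs = x :: l ∧ ys = l ++ [x]) →
      Tor (P (pairUp ys))) : Tor (V xs) := by
  match xs, h, hp with
  | [], _, _ => exact Tor.one
  | x :: l, h, hp =>
    refine Tor.of_sections (V_nil' _) (V_false x l h) (V_true (x :: l) h) ?_ ?_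
    · exact (hp (l ++ [x]) (by simp) (Or.inr ⟨x, l, rfl, rfl⟩)).conj
    · exact hp (x :: l) rfl (Or.inl rfl)

theorem V_sq (xs : List X3) : V xs * V xs = V (xs ++ xs) := (V_append xs xs).symm

/-- torsion in general, from the doubled list -/
theorem Tor_V_double (xs : List X3)
    (hp : ∀ ys : List X3, ys.length = xs.length → (∀ x, x ∈ ys ↔ x ∈ xs) →
      Tor (P (pairUp (ys ++ ys)))) : Tor (V xs) := by
  apply Tor.of_sq
  rw [V_sq]
  apply Tor_V_even
  · simp only [List.length_append]; omega
  · rintro ys hy (rfl | ⟨x, l, h1, h2⟩)
    · exact hp xs rfl (fun _ => Iff.rfl)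
    · match xs, h1, hp with
      | [], h1, _ => simp at h1
      | z :: m, h1, hp =>
        simp only [List.cons_append, List.cons.injEq] at h1
        obtain ⟨rfl, rfl⟩ := h1
        have e : ys = (m ++ [z]) ++ (m ++ [z]) := by rw [h2]; simp
        rw [e]
        apply hp
        · simp
        · intro w; simp [or_comm]

/-- every letter of an odd list occurs as a first component in the doubled list -/
theorem mem_pairUp_fst (xs : List X3) (hodd : xs.length % 2 = 1) (x : X3) (hx : x ∈ xs) :
    ∃ e, (x.next, e) ∈ pairUp (xs ++ xs) := by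
  obtain ⟨p, q, rfl⟩ := List.append_of_mem hx
  rcases Nat.mod_two_eq_zero_or_one p.length with hp | hp
  · have e : p ++ x :: q ++ (p ++ x :: q) = p ++ (x :: (q ++ (p ++ x :: q))) := by simp
    rw [e, pairUp_append _ _ hp]
    match h : q ++ (p ++ x :: q) with
    | [] => simp at h
    | y :: l => exact ⟨y.eps, by simp [pairUp]⟩
  · have e : p ++ x :: q ++ (p ++ x :: q) = (p ++ x :: q ++ p) ++ (x :: q) := by simp
    rw [e, pairUp_append _ _ (by
      simp only [List.length_append, List.length_cons] at hodd ⊢; omega)]
    match q, hodd with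
    | [], hodd => simp only [List.length_append, List.length_cons, List.length_nil] at hodd; omega
    | y :: l, _ => exact ⟨y.eps, by simp [pairUp]⟩

theorem mem_pairUp_snd (xs : List X3) (hodd : xs.length % 2 = 1) (x : X3) (hx : x ∈ xs) :
    ∃ y, (y, x.eps) ∈ pairUp (xs ++ xs) := by
  obtain ⟨p, q, rfl⟩ := List.append_of_mem hx
  -- a prefix of odd length before an occurrence of x
  have gen : ∀ (r s : List X3), r.length % 2 = 1 → ∃ y, (y, x.eps) ∈ pairUp (r ++ x :: s) := by
    intro r s hr
    rcases List.eq_nil_or_concat r with rfl | ⟨r', y, rfl⟩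
    · simp at hr
    · have e : r'.concat y ++ x :: s = r' ++ (y :: x :: s) := by simp
      rw [e, pairUp_append _ _ (by simp at hr; omega)]
      exact ⟨y.next, by simp [pairUp]⟩
  rcases Nat.mod_two_eq_zero_or_one p.length with hp | hp
  · have e : p ++ x :: q ++ (p ++ x :: q) = (p ++ x :: q ++ p) ++ (x :: q) := by simp
    rw [e]
    exact gen _ _ (by simp only [List.length_append, List.length_cons] at hodd ⊢; omega)
  · have e : p ++ x :: q ++ (p ++ x :: q) = p ++ (x :: (q ++ (p ++ x :: q))) := by simp
    rw [e]
    exact gen _ _ hp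

/-- a list of pairs with a `false` is reduced -/
theorem Tor_P_false (N : ℕ) (hS : ∀ l : List (X3 × Bool), l.length < N → Tor (P l))
    (l : List (X3 × Bool)) (hl : l.length ≤ N) (x : X3) (hx : (x, false) ∈ l) : Tor (P l) := by
  obtain ⟨p, q, rfl⟩ := List.append_of_mem hx
  rw [P_append]
  apply Tor.comm
  rw [← P_append]
  simp only [List.cons_append]
  have hlen : (q ++ p).length + 1 ≤ N := by
    simp only [List.length_append, List.length_cons] at hl ⊢; omega
  generalize q ++ p = m at hlen
  match m, hlen with
  | [], _ =>
    refine ⟨2, by norm_num, ?_⟩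
    rw [P_cons, P_nil]
    simp only [apow, Bool.false_eq_true, if_false, mul_one]
    rw [pow_two, xp_sq]
  | (y, e) :: m, hlen =>
    by_cases hxy : x = y
    · subst hxy
      have e1 : P ((x, false) :: (x, e) :: m) = apow e * P m := by
        rw [P_cons, P_cons]
        simp only [apow, Bool.false_eq_true, if_false, mul_one]
        rw [← mul_assoc, ← mul_assoc, xp_sq, one_mul]
      rw [e1]
      rcases List.eq_nil_or_concat m with rfl | ⟨m', ⟨z, f⟩, rfl⟩
      · refine ⟨2, by norm_num, ?_⟩
        rw [P_nil, mul_one, pow_two, apow_sq]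
      · apply Tor.comm
        have e2 : P (m'.concat (z, f)) * apow e = P (m' ++ [(z, xor f e)]) := by
          rw [List.concat_eq_append, P_append, P_append, P_cons, P_cons, P_nil]
          simp only [mul_one]
          rw [mul_assoc, mul_assoc, apow_xor]
        rw [e2]
        apply hS
        simp only [List.length_cons, List.length_append, List.length_nil,
          List.concat_eq_append] at hlen ⊢
        omega
    · have e1 : P ((x, false) :: (y, e) :: m) = P ((third x y, e) :: m) := by
        rw [P_cons, P_cons, P_cons]
        simp only [apow, Bool.false_eq_true, if_false, mul_one]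
        rw [← mul_assoc, ← mul_assoc, xp_mul x y hxy]
      rw [e1]
      apply hS
      simp only [List.length_cons] at hlen ⊢
      omega

/-- either there is a `false`, or the product is some `V ys` -/
theorem split_pairs (l : List (X3 × Bool)) :
    (∃ x, (x, false) ∈ l) ∨ ∃ ys : List X3, l = ys.map (fun x => (x, true)) := by
  induction l with
  | nil => exact Or.inr ⟨[], rfl⟩
  | cons q l ih =>
    obtain ⟨x, e⟩ := q
    cases e
    · exact Or.inl ⟨x, by simp⟩
    · rcases ih with ⟨y, hy⟩ | ⟨ys, rfl⟩
      · exact Or.inl ⟨y, by simp [hy]⟩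
      · exact Or.inr ⟨x :: ys, rfl⟩

/-- All products are torsion. -/
theorem Tor_P (l : List (X3 × Bool)) : Tor (P l) := by
  have main : ∀ N : ℕ, ∀ l : List (X3 × Bool), l.length = N → Tor (P l) := by
    intro N
    induction N using Nat.strong_induction_on with
    | _ N IH =>
      intro l hl
      have hS : ∀ l : List (X3 × Bool), l.length < N → Tor (P l) := fun l h => IH _ h l rfl
      -- lists of length N with a false
      have hF : ∀ l : List (X3 × Bool), l.length ≤ N → ∀ x, (x, false) ∈ l → Tor (P l) :=
        fun l h x hx => Tor_P_false N hS l h x hx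
      -- even case
      rcases Nat.eq_zero_or_pos N with h0 | hpos
      · have : l = [] := List.eq_nil_of_length_eq_zero (by omega)
        rw [this]; exact Tor.one
      rcases Nat.mod_two_eq_zero_or_one N with heven | hodd
      · rcases split_pairs l with ⟨x, hx⟩ | ⟨ys, rfl⟩
        · exact hF l hl.le x hx
        · show Tor (V ys)
          have hys : ys.length = N := by simpa using hl
          apply Tor_V_even ys (by omega)
          intro zs hzs _
          apply hS
          rw [pairUp_length]
          omega
      · -- stage 0: contains d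
        have s0 : ∀ xs : List X3, xs.length = N → X3.d ∈ xs → Tor (V xs) := by
          intro xs hxs hd
          apply Tor_V_double
          intro ys hys hmem
          obtain ⟨y, hy⟩ := mem_pairUp_snd ys (by omega) X3.d ((hmem _).2 hd)
          apply hF _ _ y hy
          rw [pairUp_length, List.length_append]
          omega
        have s1 : ∀ xs : List X3, xs.length = N → X3.c ∈ xs → Tor (V xs) := by
          intro xs hxs hc
          apply Tor_V_double
          intro ys hys hmem
          have hlen : (pairUp (ys ++ ys)).length = N := by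
            rw [pairUp_length, List.length_append]
            omega
          rcases split_pairs (pairUp (ys ++ ys)) with ⟨x, hx⟩ | ⟨zs, hzs⟩
          · exact hF _ hlen.le x hx
          · obtain ⟨e, he⟩ := mem_pairUp_fst ys (by omega) X3.c ((hmem _).2 hc)
            rw [hzs] at he ⊢
            apply s0 zs
            · rw [hzs] at hlen; simpa using hlen
            · simp only [List.mem_map, Prod.mk.injEq] at he
              obtain ⟨z, hz, hz1, -⟩ := he
              rw [hz1] at hz
              exact hz
        have s2 : ∀ xs : List X3, xs.length = N → X3.b ∈ xs → Tor (V xs) := by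
          intro xs hxs hb
          apply Tor_V_double
          intro ys hys hmem
          have hlen : (pairUp (ys ++ ys)).length = N := by
            rw [pairUp_length, List.length_append]
            omega
          rcases split_pairs (pairUp (ys ++ ys)) with ⟨x, hx⟩ | ⟨zs, hzs⟩
          · exact hF _ hlen.le x hx
          · obtain ⟨e, he⟩ := mem_pairUp_fst ys (by omega) X3.b ((hmem _).2 hb)
            rw [hzs] at he ⊢
            apply s1 zs
            · rw [hzs] at hlen; simpa using hlen
            · simp only [List.mem_map, Prod.mk.injEq] at he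
              obtain ⟨z, hz, hz1, -⟩ := he
              rw [hz1] at hz
              exact hz
        rcases split_pairs l with ⟨x, hx⟩ | ⟨ys, rfl⟩
        · exact hF l hl.le x hx
        · show Tor (V ys)
          have hys : ys.length = N := by simpa using hl
          match ys, hys with
          | [], hys => simp at hys; omega
          | .b :: ys, hys => exact s2 _ hys (by simp)
          | .c :: ys, hys => exact s1 _ hys (by simp)
          | .d :: ys, hys => exact s0 _ hys (by simp)
  exact main _ l rfl

/-- normal shape of the elements of the group -/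
theorem shape (g : Equiv.Perm (List Bool)) (hg : g ∈ Grig) :
    ∃ (e : Bool) (l : List (X3 × Bool)), g = apow e * P l := by
  have hgen : ∀ (s : Gen) (e : Bool) (l : List (X3 × Bool)),
      ∃ (e' : Bool) (l' : List (X3 × Bool)), genPerm s * (apow e * P l) = apow e' * P l' := by
    intro s e l
    have hx : ∀ x : X3, ∃ (e' : Bool) (l' : List (X3 × Bool)),
        xp x * (apow e * P l) = apow e' * P l' := by
      intro x
      refine ⟨false, (x, e) :: l, ?_⟩
      rw [P_cons]
      simp [apow, mul_assoc]
    cases s with
    | a => exact ⟨xor true e, l, by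
        rw [← apow_xor, mul_assoc]; simp [apow, ap]⟩
    | b => exact hx .b
    | c => exact hx .c
    | d => exact hx .d
  induction hg using Subgroup.closure_induction_left with
  | one => exact ⟨false, [], by simp [apow, P_nil]⟩
  | mul_left x hx y hy ih =>
    obtain ⟨s, rfl⟩ := hx
    obtain ⟨e, l, rfl⟩ := ih
    exact hgen s e l
  | inv_mul_cancel x hx y hy ih =>
    obtain ⟨s, rfl⟩ := hx
    obtain ⟨e, l, rfl⟩ := ih
    have : (genPerm s)⁻¹ = genPerm s := inv_eq_of_mul_eq_one_left (genPerm_sq s)
    rw [this]
    exact hgen s e l

/-- The Grigorchuk group is a torsion group. -/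
theorem Grig_torsion (g : Grig) : ∃ n : ℕ, 0 < n ∧ g ^ n = 1 := by
  have key : Tor (g : Equiv.Perm (List Bool)) := by
    obtain ⟨e, l, he⟩ := shape g g.2
    rw [he]
    apply Tor.comm
    rcases List.eq_nil_or_concat l with rfl | ⟨m, ⟨z, f⟩, rfl⟩
    · refine ⟨2, by norm_num, ?_⟩
      rw [P_nil, one_mul, pow_two, apow_sq]
    · have e2 : P (m.concat (z, f)) * apow e = P (m ++ [(z, xor f e)]) := by
        rw [List.concat_eq_append, P_append, P_append, P_cons, P_cons, P_nil]
        simp only [mul_one]
        rw [mul_assoc, mul_assoc, apow_xor]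
      rw [e2]
      exact Tor_P _
  obtain ⟨n, hn, h⟩ := key
  exact ⟨n, hn, Subtype.ext (by simpa using h)⟩

end Pool.Agent.H57.EDT
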